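import Mathlib

namespace Pool.Agent.H874LT

theorem log_q : Real.log (14 / 3) ≤ 1.54045 := by
  rw [Real.log_le_iff_le_exp (by norm_num)]
  have h1 : (1.54045 : ℝ) = 1 + 0.54045 := by norm_num
  rw [h1, Real.exp_add]
  have h2 := Real.exp_one_gt_d9
  have h3 := Real.sum_le_exp_of_nonneg (show (0:ℝ) ≤ 0.54045 by norm_num) 9
  have h4 : (1.716778 : ℝ) ≤ Real.exp 0.54045 := by
    refine le_trans ?_ h3
    simp only [Finset.sum_range_succ, Finset.sum_range_zero, Nat.factorial]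
    norm_num
  nlinarith

theorem arsinh_bound (x : ℝ) (hx : 0 < x) :
    Real.arsinh x ≤ 1.0809 + 3 / 7 * Real.sqrt (2 * x + 1 / (2 * x)) := by
  set Z := 2 * x + 1 / (2 * x) with hZ
  have hZ0 : 0 < Z := by positivity
  have h1 : Real.sqrt (1 + x ^ 2) ≤ x + 1 / (2 * x) := by
    rw [Real.sqrt_le_left (by positivity)]
    have : (x + 1 / (2 * x)) ^ 2 = x ^ 2 + 1 + (1 / (2 * x)) ^ 2 := by
      field_simp; ring
    rw [this]
    nlinarith [sq_nonneg (1 / (2 * x))]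
  have h2 : Real.exp (Real.arsinh x) ≤ Z := by
    rw [Real.exp_arsinh, hZ]; linarith
  have h3 : Real.arsinh x ≤ Real.log Z := by
    rw [Real.le_log_iff_exp_le hZ0]; exact h2
  have h4 : Real.log Z = 2 * (Real.log (Real.sqrt Z / (14 / 3)) + Real.log (14 / 3)) := by
    rw [← Real.log_mul (by positivity) (by norm_num)]
    rw [div_mul_cancel₀ _ (by norm_num)]
    rw [Real.log_sqrt hZ0.le]; ring
  have h5 : Real.log (Real.sqrt Z / (14 / 3)) ≤ Real.sqrt Z / (14 / 3) - 1 :=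
    Real.log_le_sub_one_of_pos (by positivity)
  have h6 := log_q
  calc Real.arsinh x ≤ Real.log Z := h3
    _ = 2 * (Real.log (Real.sqrt Z / (14 / 3)) + Real.log (14 / 3)) := h4
    _ ≤ 2 * (Real.sqrt Z / (14 / 3) - 1 + 1.54045) := by gcongr
    _ = 1.0809 + 3 / 7 * Real.sqrt Z := by ring

theorem sqrt_tan (A s : ℝ) (hA : 0 ≤ A) (hs : 0 < s) : Real.sqrt A ≤ (A / s + s) / 2 := by
  rw [Real.sqrt_le_left (by positivity)]
  have h : ((A / s + s) / 2) ^ 2 = A + ((A / s - s) / 2) ^ 2 := by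
    field_simp; ring
  rw [h]; nlinarith [sq_nonneg ((A / s - s) / 2)]

/-- `√(r (1 - r²)) arsinh ((1+r)/(1-r)) ≤ 1.56085` on `(0,1)`. -/
theorem main_bound (r : ℝ) (h0 : 0 < r) (h1 : r < 1) :
    Real.sqrt (r * (1 - r ^ 2)) * Real.arsinh ((1 + r) / (1 - r)) ≤ 1.56085 := by
  have h1r : 0 < 1 - r := by linarith
  have hS : 0 < r * (1 - r ^ 2) := by nlinarith [mul_pos h0 h1r]
  have hx : 0 < (1 + r) / (1 - r) := by positivity
  have hb := arsinh_bound _ hx
  set Z := 2 * ((1 + r) / (1 - r)) + 1 / (2 * ((1 + r) / (1 - r))) with hZ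
  have hZ0 : 0 < Z := by positivity
  have hSZ : r * (1 - r ^ 2) * Z = r * (5 + 6 * r + 5 * r ^ 2) / 2 := by
    rw [hZ]; field_simp; ring
  have e1 : Real.sqrt (r * (1 - r ^ 2)) * Real.sqrt Z
      = Real.sqrt (r * (5 + 6 * r + 5 * r ^ 2) / 2) := by
    rw [← Real.sqrt_mul hS.le, hSZ]
  -- tangent bounds for the two square roots
  have e2 : Real.sqrt (r * (1 - r ^ 2)) ≤ (r * (1 - r ^ 2) / 0.506 + 0.506) / 2 :=
    sqrt_tan _ _ hS.le (by norm_num)
  have hT : 0 < r * (5 + 6 * r + 5 * r ^ 2) / 2 := by positivity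
  have e3 : Real.sqrt (r * (5 + 6 * r + 5 * r ^ 2) / 2)
      ≤ (r * (5 + 6 * r + 5 * r ^ 2) / 2 / 2.365 + 2.365) / 2 :=
    sqrt_tan _ _ hT.le (by norm_num)
  calc Real.sqrt (r * (1 - r ^ 2)) * Real.arsinh ((1 + r) / (1 - r))
      ≤ Real.sqrt (r * (1 - r ^ 2)) * (1.0809 + 3 / 7 * Real.sqrt Z) := by gcongr
    _ = 1.0809 * Real.sqrt (r * (1 - r ^ 2))
        + 3 / 7 * Real.sqrt (r * (5 + 6 * r + 5 * r ^ 2) / 2) := by
        rw [← e1]; ring
    _ ≤ 1.0809 * ((r * (1 - r ^ 2) / 0.506 + 0.506) / 2)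
        + 3 / 7 * ((r * (5 + 6 * r + 5 * r ^ 2) / 2 / 2.365 + 2.365) / 2) := by gcongr
    _ = 1.56085 - ((r - 0.8318) ^ 2 * ((8591633931/7615300000) + (2563509/3046120) * r) + (961557087/76153000000000) * r + (23126108389/190382500000000000)) := by
        ring
    _ ≤ 1.56085 := by
        have : 0 ≤ (r - 0.8318) ^ 2 * ((8591633931/7615300000) + (2563509/3046120) * r) + (961557087/76153000000000) * r + (23126108389/190382500000000000) := by
          positivity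
        linarith

theorem second_bound (r : ℝ) (h0 : 0 < r) (h1 : r < 1) :
    Real.sqrt (1 - r) * Real.arsinh ((1 + r) / (1 - r)) ≤ 3 := by
  have h1r : 0 < 1 - r := by linarith
  have hx : 0 < (1 + r) / (1 - r) := by positivity
  have hb := arsinh_bound _ hx
  set Z := 2 * ((1 + r) / (1 - r)) + 1 / (2 * ((1 + r) / (1 - r))) with hZ
  have hZ0 : 0 < Z := by positivity
  have e1 : Real.sqrt (1 - r) * Real.sqrt Z ≤ 3 := by
    rw [← Real.sqrt_mul h1r.le]
    rw [Real.sqrt_le_left (by norm_num)]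
    have : (1 - r) * Z = 2 * (1 + r) + (1 - r) ^ 2 / (2 * (1 + r)) := by
      rw [hZ]; field_simp
    rw [this]
    have h2 : (1 - r) ^ 2 / (2 * (1 + r)) ≤ 1 := by
      rw [div_le_one (by positivity)]; nlinarith
    linarith
  have e2 : Real.sqrt (1 - r) ≤ 1 := by
    rw [Real.sqrt_le_left (by norm_num)]; linarith
  calc Real.sqrt (1 - r) * Real.arsinh ((1 + r) / (1 - r))
      ≤ Real.sqrt (1 - r) * (1.0809 + 3 / 7 * Real.sqrt Z) := by gcongr
    _ = 1.0809 * Real.sqrt (1 - r) + 3 / 7 * (Real.sqrt (1 - r) * Real.sqrt Z) := by ring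
    _ ≤ 1.0809 * 1 + 3 / 7 * 3 := by gcongr
    _ ≤ 3 := by norm_num

end Pool.Agent.H874LT
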