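import Pool.Agent.H874LT.Core
import Pool.Agent.H874LT.Numer

open Finset Filter Topology MeasureTheory

namespace Pool.Agent.H874LT

/-- The first angle: `cos φ₁ = 1 - 2/D` with `D = r(1-r²)Y + (1-r)`. -/
theorem ang_one (m : ℕ) (Y r : ℝ) (hr0 : 0 < r) (hr1 : r < 1) (hY0 : 0 < Y)
    (hY : r ^ 2 * Y = m + 1 / 2) :
    -(vv m (r * Y) 1) / ((1 - r) / (1 + r)) = 1 - 2 / (r * (1 - r ^ 2) * Y + (1 - r)) := by
  unfold vv
  have h1r : 0 < 1 - r := by linarith
  have e : (m : ℝ) + (1 : ℕ) + 1 / 2 = r ^ 2 * Y + 1 := by rw [hY]; push_cast; ring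
  rw [e]
  have hD : 0 < r * (1 - r ^ 2) * Y + (1 - r) := by
    have : 0 < 1 - r ^ 2 := by nlinarith
    positivity
  have h2 : 0 < r ^ 2 * Y + 1 + r * Y := by positivity
  have h3 : r * (1 - r ^ 2) * Y + (1 - r) = (1 - r) * ((r * Y) * (1 + r) + 1) := by ring
  have h4 : 0 < (r * Y) * (1 + r) + 1 := by positivity
  rw [h3]
  have h5 : r ^ 2 * Y + 1 + r * Y = (r * Y) * (1 + r) + 1 := by ring
  rw [h5]
  field_simp
  ring

theorem lower_one (m N : ℕ) (a : ℕ → ℝ) (M Y : ℝ) (hm : 1 ≤ m)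
    (hM : ∀ x ∈ Set.Icc (0:ℝ) 1, |∑ i ∈ range (N + 1), a i * x ^ (m + i)| ≤ M)
    (ha0 : |a 0| = 1) (ha : ∀ i ≤ N, |a i| ≤ 1)
    (hYN : (m : ℝ) + N + 30 ≤ Y) (hYlarge : 131 ≤ Y) :
    8 / (3 * Real.pi ^ 3) ≤ M * (Y ^ 3 *
      Real.exp (Real.pi / 2 * (1.56085 * Real.sqrt Y + 3))) := by
  have hN0 : (0:ℝ) ≤ N := by positivity
  have hm1 : (1:ℝ) ≤ m := by exact_mod_cast hm
  have hY0 : 0 < Y := by linarith
  have hM0 : 0 ≤ M := le_trans (abs_nonneg _) (hM 0 ⟨le_rfl, zero_le_one⟩)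
  set r := Real.sqrt (((m : ℝ) + 1 / 2) / Y) with hr
  have hr0 : 0 < r := Real.sqrt_pos.mpr (by positivity)
  have hr2 : r ^ 2 = ((m : ℝ) + 1 / 2) / Y := Real.sq_sqrt (by positivity)
  have hrY : r ^ 2 * Y = m + 1 / 2 := by rw [hr2]; field_simp
  have hr21 : 29.5 / Y ≤ 1 - r ^ 2 := by
    rw [hr2, div_le_iff₀ hY0, sub_mul, div_mul_cancel₀ _ hY0.ne']
    linarith
  have hr1 : r < 1 := by
    have : 0 < 29.5 / Y := by positivity
    nlinarith
  have h1r : 0 < 1 - r := by linarith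
  have h1r' : 14.75 / Y ≤ 1 - r := by
    have : 1 - r ^ 2 ≤ 2 * (1 - r) := by nlinarith
    have e : 14.75 / Y = 29.5 / Y / 2 := by ring
    rw [e]; linarith
  set D := r * (1 - r ^ 2) * Y + (1 - r) with hD
  have hD7 : 7 ≤ D := by
    have e : r * (1 - r ^ 2) * Y = r * (Y - (m + 1 / 2)) := by rw [← hrY]; ring
    rcases le_total ((m:ℝ) + 1 / 2) (Y / 2) with h | h
    · have h2 : 14 ≤ r * Y := by
        have h3 : (r * Y) ^ 2 = ((m:ℝ) + 1 / 2) * Y := by rw [← hrY]; ring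
        have h4 : 196 ≤ (r * Y) ^ 2 := by rw [h3]; nlinarith
        by_contra hc
        push Not at hc
        have : 0 < r * Y := by positivity
        nlinarith
      have h3 : r * (Y / 2) ≤ r * (Y - (m + 1 / 2)) := by
        apply mul_le_mul_of_nonneg_left _ hr0.le; linarith
      rw [hD, e]; linarith
    · have h2 : 0.7 ≤ r := by
        have h3 : 1 / 2 ≤ r ^ 2 := by rw [hr2, le_div_iff₀ hY0]; linarith
        nlinarith
      have h3 : 29.5 ≤ Y - (m + 1 / 2) := by linarith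
      have h4 : 0.7 * 29.5 ≤ r * (Y - (m + 1 / 2)) := by
        apply mul_le_mul h2 h3 (by norm_num) hr0.le
      rw [hD, e]; linarith
  have hD0 : 0 < D := by linarith
  have hDY : D ≤ 2 * Y := by
    have : r * (1 - r ^ 2) ≤ 1 := by nlinarith [sq_nonneg r]
    rw [hD]; nlinarith
  -- the first angle
  set φ := ang m (r * Y) ((1 - r) / (1 + r)) 1 with hφ
  have hφe : φ = Real.arccos (1 - 2 / D) := by
    rw [hφ]; unfold ang; rw [ang_one m Y r hr0 hr1 hY0 hrY]
  have h2D : 2 / D ≤ 2 / 7 := by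
    gcongr
  have h2D0 : 0 < 2 / D := by positivity
  have hcos : Real.cos φ = 1 - 2 / D := by
    rw [hφe, Real.cos_arccos (by linarith) (by linarith)]
  have hφ0 : 0 < φ := by
    rw [hφe]; exact Real.arccos_pos.mpr (by linarith)
  have hφsq : 4 / D ≤ φ ^ 2 := by
    have := Real.one_sub_sq_div_two_le_cos (x := φ)
    rw [hcos] at this
    have e : 4 / D = 2 * (2 / D) := by ring
    rw [e]; linarith
  have hφ4 : φ ≤ Real.pi / 4 := by
    rw [hφe]
    have h3 : Real.arccos (1 - 2 / D) ≤ Real.arccos (Real.sqrt 2 / 2) := by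
      apply Real.arccos_le_arccos
      have : Real.sqrt 2 ≤ 1.4143 := by
        rw [Real.sqrt_le_left (by norm_num)]; norm_num
      linarith
    rw [← Real.cos_pi_div_four, Real.arccos_cos (by positivity)
      (by linarith [Real.pi_pos])] at h3
    exact h3
  -- choice of k
  have hπ := Real.pi_pos
  set X := Real.pi / φ with hX
  have hX4 : 4 ≤ X := by
    rw [hX, le_div_iff₀ hφ0]; linarith
  have hX0 : 0 < X := by linarith
  set k := ⌊X⌋₊ + 2 with hk
  have hk1 : X + 1 ≤ (k : ℝ) := by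
    have := Nat.lt_floor_add_one X
    rw [hk]; push_cast; linarith
  have hk2 : (k : ℝ) ≤ X + 2 := by
    have := Nat.floor_le hX0.le
    rw [hk]; push_cast; linarith
  have hk0 : (0:ℝ) < k := by linarith
  have hXφ : X * φ = Real.pi := by rw [hX]; field_simp
  have hkX1 : X ≤ (k : ℝ) := by linarith
  have hkX2 : (k : ℝ) ≤ 3 / 2 * X := by linarith
  have c1 : Real.pi / k ≤ φ := by
    rw [div_le_iff₀ hk0, ← hXφ, mul_comm]
    exact mul_le_mul_of_nonneg_left hkX1 hφ0.le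
  have c2 : φ ≤ 3 / 2 * (Real.pi / k) := by
    rw [← mul_div_assoc, le_div_iff₀ hk0, ← hXφ, ← mul_assoc, mul_comm]
    exact mul_le_mul_of_nonneg_right hkX2 hφ0.le
  have hcore := core m N k a M Y r hM ha0 ha hr0 hr1 hrY (by linarith) (by omega) c1 c2
  rw [← hφ] at hcore
  have c3 : φ ^ 2 * (2 / (3 * Real.pi)) ≤ φ - Real.pi / k := by
    have e : φ - Real.pi / k = φ * (k - X) / k := by
      rw [← hXφ]; field_simp
    rw [e, le_div_iff₀ hk0]
    have h5 : (k : ℝ) ≤ 3 / 2 * X := by linarith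
    calc φ ^ 2 * (2 / (3 * Real.pi)) * k ≤ φ ^ 2 * (2 / (3 * Real.pi)) * (3 / 2 * X) := by
          gcongr
      _ = φ * (φ * X / Real.pi) := by field_simp
      _ = φ * 1 := by rw [mul_comm φ X, hXφ, div_self hπ.ne']
      _ ≤ φ * (k - X) := by
          apply mul_le_mul_of_nonneg_left _ hφ0.le; linarith
  set A := Real.arsinh ((1 + r) / (1 - r)) with hA
  have hx1 : 1 ≤ (1 + r) / (1 - r) := by rw [le_div_iff₀ h1r]; linarith
  have hA0 : 0 ≤ A := Real.arsinh_nonneg_iff.mpr (by linarith)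
  -- exponential factor
  have hexpA : Real.exp A ≤ Y := by
    have h6 : Real.exp A ≤ 2 * ((1 + r) / (1 - r)) + 1 / 2 := by
      rw [hA, Real.exp_arsinh]
      have : Real.sqrt (1 + ((1 + r) / (1 - r)) ^ 2) ≤ (1 + r) / (1 - r) + 1 / 2 := by
        rw [Real.sqrt_le_left (by positivity)]
        nlinarith
      linarith
    have h7 : 2 * ((1 + r) / (1 - r)) + 1 / 2 ≤ 5 / (1 - r) := by
      have : 2 * ((1 + r) / (1 - r)) + 1 / 2 = (2 * (1 + r) + (1 - r) / 2) / (1 - r) := by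
        field_simp
      rw [this]; gcongr; linarith
    have h8 : 5 / (1 - r) ≤ Y := by
      rw [div_le_iff₀ h1r]
      have : 14.75 ≤ (1 - r) * Y := by
        rw [div_le_iff₀ hY0] at h1r'; exact h1r'
      linarith
    linarith
  have hsqD : Real.sqrt D * A ≤ 1.56085 * Real.sqrt Y + 3 := by
    have hS : 0 ≤ r * (1 - r ^ 2) := by
      have : 0 ≤ 1 - r ^ 2 := by nlinarith
      positivity
    have h9 : Real.sqrt D ≤ Real.sqrt (r * (1 - r ^ 2)) * Real.sqrt Y + Real.sqrt (1 - r) := by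
      rw [← Real.sqrt_mul hS, Real.sqrt_le_left (by positivity)]
      have s1 := Real.sq_sqrt (show 0 ≤ r * (1 - r ^ 2) * Y by positivity)
      have s2 := Real.sq_sqrt h1r.le
      have s3 : 0 ≤ Real.sqrt (r * (1 - r ^ 2) * Y) * Real.sqrt (1 - r) := by positivity
      nlinarith
    have h10 := main_bound r hr0 hr1
    have h11 := second_bound r hr0 hr1
    rw [← hA] at h10 h11
    calc Real.sqrt D * A
        ≤ (Real.sqrt (r * (1 - r ^ 2)) * Real.sqrt Y + Real.sqrt (1 - r)) * A := by gcongr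
      _ = (Real.sqrt (r * (1 - r ^ 2)) * A) * Real.sqrt Y + Real.sqrt (1 - r) * A := by ring
      _ ≤ 1.56085 * Real.sqrt Y + 3 := by gcongr
  have hXD : X ≤ Real.pi / 2 * Real.sqrt D := by
    have h12 : 2 / Real.sqrt D ≤ φ := by
      have : (2 / Real.sqrt D) ^ 2 ≤ φ ^ 2 := by
        rw [div_pow, Real.sq_sqrt hD0.le]; norm_num; exact hφsq
      exact (pow_le_pow_iff_left₀ (by positivity) hφ0.le two_ne_zero).mp this
    rw [hX, div_le_iff₀ hφ0]
    have hsD : 0 < Real.sqrt D := Real.sqrt_pos.mpr hD0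
    rw [div_le_iff₀ hsD] at h12
    calc Real.pi = Real.pi / 2 * 2 := by ring
      _ ≤ Real.pi / 2 * (φ * Real.sqrt D) := by gcongr
      _ = _ := by ring
  have hpowA : Real.exp A ^ (k - 1) ≤ Y *
      Real.exp (Real.pi / 2 * (1.56085 * Real.sqrt Y + 3)) := by
    rw [← Real.exp_nat_mul]
    have hk' : ((k - 1 : ℕ) : ℝ) ≤ X + 1 := by
      rw [Nat.cast_sub (by omega)]; push_cast; linarith
    calc Real.exp (((k - 1 : ℕ) : ℝ) * A) ≤ Real.exp ((X + 1) * A) := by gcongr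
      _ = Real.exp A * Real.exp (X * A) := by rw [← Real.exp_add]; ring_nf
      _ ≤ Y * Real.exp (Real.pi / 2 * (1.56085 * Real.sqrt Y + 3)) := by
          have h13 : X * A ≤ Real.pi / 2 * (1.56085 * Real.sqrt Y + 3) := by
            calc X * A ≤ Real.pi / 2 * Real.sqrt D * A := by gcongr
              _ = Real.pi / 2 * (Real.sqrt D * A) := by ring
              _ ≤ _ := by gcongr
          have h14 := Real.exp_le_exp.mpr h13
          exact mul_le_mul hexpA h14 (Real.exp_pos _).le hY0.le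
  have hkY : (k : ℝ) ≤ Y := by
    have h15 : Real.sqrt D ≤ Real.sqrt (2 * Y) := Real.sqrt_le_sqrt hDY
    have h16 : Real.sqrt (2 * Y) ≤ Y / 2 := by
      rw [Real.sqrt_le_left (by positivity)]; nlinarith
    have h17 : X ≤ 3.15 / 2 * (Y / 2) := by
      have := Real.pi_lt_d2
      calc X ≤ Real.pi / 2 * Real.sqrt D := hXD
        _ ≤ 3.15 / 2 * (Y / 2) := by
            apply mul_le_mul (by linarith) (h15.trans h16) (Real.sqrt_nonneg _) (by norm_num)
    linarith
  have hsq : Real.sqrt (2 * (r * Y) * k) ≤ 2 * Y := by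
    rw [Real.sqrt_le_left (by positivity)]
    calc 2 * (r * Y) * k ≤ 2 * (1 * Y) * Y := by gcongr
      _ ≤ (2 * Y) ^ 2 := by nlinarith
  have hfin : 4 / Real.pi * (4 / D * (2 / (3 * Real.pi)))
      ≤ Real.pi * (2 * Y * M) * (Y * Real.exp (Real.pi / 2 * (1.56085 * Real.sqrt Y + 3))) := by
    calc 4 / Real.pi * (4 / D * (2 / (3 * Real.pi)))
        ≤ 4 / Real.pi * (φ ^ 2 * (2 / (3 * Real.pi))) := by gcongr
      _ ≤ 4 / Real.pi * (φ - Real.pi / k) := by gcongr
      _ ≤ _ := hcore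
      _ ≤ _ := by gcongr
  have h18 : 4 / Real.pi * (4 / (2 * Y) * (2 / (3 * Real.pi)))
      ≤ Real.pi * (2 * Y * M) * (Y * Real.exp (Real.pi / 2 * (1.56085 * Real.sqrt Y + 3))) := by
    refine le_trans ?_ hfin
    gcongr
  set E := Real.exp (Real.pi / 2 * (1.56085 * Real.sqrt Y + 3)) with hE
  have e19 : 4 / Real.pi * (4 / (2 * Y) * (2 / (3 * Real.pi)))
      = (8 / (3 * Real.pi ^ 3)) * (2 * Real.pi / Y) := by
    field_simp; ring
  have e20 : Real.pi * (2 * Y * M) * (Y * E) = (M * (Y ^ 3 * E)) * (2 * Real.pi / Y) := by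
    field_simp
  rw [e19, e20] at h18
  exact le_of_mul_le_mul_right h18 (by positivity)

end Pool.Agent.H874LT
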