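import Mathlib

open Finset

namespace Pool.Agent.H874LT

/-- The box principle for `0/1` vectors. -/
theorem box {Q : Type*} [Fintype Q] [DecidableEq Q] (s : Finset ℕ) (f : Q → ℕ → ℝ) (w : Q → ℝ)
    (R : ℝ) (hw : ∀ q, 0 < w q) (hwR : ∀ q, w q ≤ R) (hf : ∀ q, ∑ j ∈ s, |f q j| ≤ R)
    (hcard : ∏ q, (4 * R / w q) < 2 ^ s.card) :
    ∃ a : ℕ → ℤ, (∀ j, a j = -1 ∨ a j = 0 ∨ a j = 1) ∧ (∃ j ∈ s, a j ≠ 0) ∧
      (∀ j, j ∉ s → a j = 0) ∧ ∀ q, |∑ j ∈ s, (a j : ℝ) * f q j| ≤ w q := by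
  classical
  set F : Finset ℕ → Q → ℤ := fun T q => ⌊(∑ j ∈ T, f q j) / w q⌋ with hF
  set C : Finset (Q → ℤ) := Fintype.piFinset (fun q => Finset.Icc ⌊-(R / w q)⌋ ⌊R / w q⌋) with hC
  have hCc : (C.card : ℝ) ≤ ∏ q, (4 * R / w q) := by
    rw [hC, Fintype.card_piFinset]
    push_cast
    refine Finset.prod_le_prod (fun q _ => by positivity) fun q _ => ?_
    rw [Int.card_Icc]
    have hz : 1 ≤ R / w q := by rw [le_div_iff₀ (hw q)]; linarith [hwR q]
    have h1 := Int.floor_le (R / w q)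
    have h2 := Int.lt_floor_add_one (-(R / w q))
    have h3 : 0 ≤ ⌊R / w q⌋ + 1 - ⌊-(R / w q)⌋ := by
      have h4 : ⌊-(R / w q)⌋ ≤ ⌊R / w q⌋ := Int.floor_le_floor (by linarith)
      linarith
    have h5 : (((⌊R / w q⌋ + 1 - ⌊-(R / w q)⌋).toNat : ℕ) : ℝ)
        = ((⌊R / w q⌋ + 1 - ⌊-(R / w q)⌋ : ℤ) : ℝ) := by
      rw [← Int.cast_natCast, Int.toNat_of_nonneg h3]
    rw [h5]
    push_cast
    have h6 : 4 * R / w q = 4 * (R / w q) := by ring
    rw [h6]
    linarith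
  have hlt : C.card < (s.powerset).card := by
    rw [Finset.card_powerset]
    exact_mod_cast lt_of_le_of_lt hCc hcard
  have hmaps : ∀ T ∈ s.powerset, F T ∈ C := by
    intro T hT
    rw [Finset.mem_powerset] at hT
    rw [hC, Fintype.mem_piFinset]
    intro q
    have h1 : |∑ j ∈ T, f q j| ≤ R :=
      (Finset.abs_sum_le_sum_abs _ _).trans
        ((Finset.sum_le_sum_of_subset_of_nonneg hT fun _ _ _ => abs_nonneg _).trans (hf q))
    have h2 := abs_le.mp h1
    rw [Finset.mem_Icc]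
    constructor
    · apply Int.floor_le_floor
      rw [← neg_div]
      have := hw q
      gcongr
      exact h2.1
    · apply Int.floor_le_floor
      have := hw q
      gcongr
      exact h2.2
  obtain ⟨T, hT, T', hT', hne, heq⟩ :=
    Finset.exists_ne_map_eq_of_card_lt_of_maps_to hlt hmaps
  rw [Finset.mem_powerset] at hT hT'
  refine ⟨fun j => (if j ∈ T then 1 else 0) - (if j ∈ T' then 1 else 0), ?_, ?_, ?_, ?_⟩
  · intro j
    by_cases h1 : j ∈ T <;> by_cases h2 : j ∈ T' <;> simp [h1, h2]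
  · by_contra hcon
    push Not at hcon
    apply hne
    ext j
    by_cases hj : j ∈ s
    · have := hcon j hj
      by_cases h1 : j ∈ T <;> by_cases h2 : j ∈ T' <;> simp [h1, h2] at this ⊢
    · constructor
      · intro h; exact absurd (hT h) hj
      · intro h; exact absurd (hT' h) hj
  · intro j hj
    have h1 : j ∉ T := fun h => hj (hT h)
    have h2 : j ∉ T' := fun h => hj (hT' h)
    simp [h1, h2]
  · intro q
    have e : ∑ j ∈ s, (((if j ∈ T then 1 else 0) - (if j ∈ T' then 1 else 0) : ℤ) : ℝ) * f q j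
        = ∑ j ∈ T, f q j - ∑ j ∈ T', f q j := by
      have e1 : ∑ j ∈ T, f q j = ∑ j ∈ s, (if j ∈ T then f q j else 0) := by
        rw [Finset.sum_ite_mem, Finset.inter_eq_right.mpr hT]
      have e2 : ∑ j ∈ T', f q j = ∑ j ∈ s, (if j ∈ T' then f q j else 0) := by
        rw [Finset.sum_ite_mem, Finset.inter_eq_right.mpr hT']
      rw [e1, e2, ← Finset.sum_sub_distrib]
      refine Finset.sum_congr rfl fun j _ => ?_
      by_cases h1 : j ∈ T <;> by_cases h2 : j ∈ T' <;> simp [h1, h2]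
    rw [e]
    have h1 : ⌊(∑ j ∈ T, f q j) / w q⌋ = ⌊(∑ j ∈ T', f q j) / w q⌋ := congrFun heq q
    have h2 := Int.abs_sub_lt_one_of_floor_eq_floor h1
    rw [← sub_div, abs_div, abs_of_pos (hw q), div_lt_one (hw q)] at h2
    exact h2.le

end Pool.Agent.H874LT
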