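import Pool.Agent.H874LT.Kernel

open Finset Filter Topology

namespace Pool.Agent.H874LT

/-- Chebyshev functionals grow at most like `ρ ^ l`. -/
theorem cheb_bound (s : Finset ℕ) (c v φ : ℕ → ℝ) (v0 ρ B : ℝ) (hv0 : 0 < v0)
    (hx : ∀ i ∈ s, v i = - v0 * Real.cos (φ i))
    (hρ : ρ ^ 2 = 2 / v0 * ρ + 1) (hρ1 : 1 / v0 ≤ ρ) (hB0 : 0 ≤ B) (d : ℕ)
    (hB : ∀ k ≤ d, |∑ i ∈ s, c i * v i ^ k| ≤ B) :
    ∀ l k : ℕ, k + l ≤ d → |∑ i ∈ s, c i * v i ^ k * Real.cos (l * φ i)| ≤ B * ρ ^ l := by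
  have hρ0 : 0 ≤ ρ := le_trans (by positivity) hρ1
  intro l
  induction l using Nat.strong_induction_on with
  | _ l ih =>
    match l, ih with
    | 0, _ =>
      intro k hk
      simpa using hB k (by omega)
    | 1, ih =>
      intro k hk
      have h1 : ∑ i ∈ s, c i * v i ^ k * Real.cos ((1 : ℕ) * φ i)
          = - (1 / v0) * ∑ i ∈ s, c i * v i ^ (k + 1) := by
        rw [Finset.mul_sum]
        refine Finset.sum_congr rfl fun i hi => ?_
        have : Real.cos (φ i) = - (1 / v0) * v i := by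
          rw [hx i hi]; field_simp
        push_cast
        rw [one_mul, this]; ring
      rw [h1, abs_mul, abs_neg, abs_of_pos (by positivity : 0 < 1 / v0), pow_one]
      calc 1 / v0 * |∑ i ∈ s, c i * v i ^ (k + 1)| ≤ ρ * B :=
            mul_le_mul hρ1 (hB (k + 1) (by omega)) (abs_nonneg _) hρ0
        _ = B * ρ := by ring
    | (l + 2), ih =>
      intro k hk
      have e1 := ih (l + 1) (by omega) (k + 1) (by omega)
      have e2 := ih l (by omega) k (by omega)
      have h1 : ∑ i ∈ s, c i * v i ^ k * Real.cos ((l + 2 : ℕ) * φ i)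
          = - (2 / v0) * ∑ i ∈ s, c i * v i ^ (k + 1) * Real.cos ((l + 1 : ℕ) * φ i)
            - ∑ i ∈ s, c i * v i ^ k * Real.cos (l * φ i) := by
        rw [Finset.mul_sum, ← Finset.sum_sub_distrib]
        refine Finset.sum_congr rfl fun i hi => ?_
        have h2 : Real.cos (φ i) = - (1 / v0) * v i := by
          rw [hx i hi]; field_simp
        have h3 : Real.cos ((l + 2 : ℕ) * φ i)
            = 2 * Real.cos (φ i) * Real.cos ((l + 1 : ℕ) * φ i) - Real.cos (l * φ i) := by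
          have e3 : ((l + 2 : ℕ) : ℝ) * φ i = ((l + 1 : ℕ) : ℝ) * φ i + φ i := by
            push_cast; ring
          have e4 : (l : ℝ) * φ i = ((l + 1 : ℕ) : ℝ) * φ i - φ i := by
            push_cast; ring
          rw [e3, e4, Real.cos_add, Real.cos_sub]; ring
        rw [h3, h2]; ring
      rw [h1]
      calc |- (2 / v0) * ∑ i ∈ s, c i * v i ^ (k + 1) * Real.cos ((l + 1 : ℕ) * φ i)
            - ∑ i ∈ s, c i * v i ^ k * Real.cos (l * φ i)|
          ≤ |- (2 / v0) * ∑ i ∈ s, c i * v i ^ (k + 1) * Real.cos ((l + 1 : ℕ) * φ i)|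
            + |∑ i ∈ s, c i * v i ^ k * Real.cos (l * φ i)| := abs_sub _ _
        _ ≤ 2 / v0 * (B * ρ ^ (l + 1)) + B * ρ ^ l := by
            rw [abs_mul, abs_neg, abs_of_pos (by positivity : 0 < 2 / v0)]
            gcongr
        _ = B * ρ ^ l * (2 / v0 * ρ + 1) := by ring
        _ = B * ρ ^ (l + 2) := by rw [← hρ]; ring

/-- The quadratic form as an integral. -/
theorem Qf_eq_integral (s : Finset ℕ) (m : ℕ) (c : ℕ → ℝ) :
    Qf s (fun i => (m : ℝ) + i + 1 / 2) c = ∫ x in (0:ℝ)..1, (∑ i ∈ s, c i * x ^ (m + i)) ^ 2 := by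
  have h1 : ∀ x : ℝ, (∑ i ∈ s, c i * x ^ (m + i)) ^ 2
      = ∑ i ∈ s, ∑ j ∈ s, c i * c j * x ^ (2 * m + i + j) := by
    intro x
    rw [sq, Finset.sum_mul_sum]
    refine Finset.sum_congr rfl fun i _ => Finset.sum_congr rfl fun j _ => ?_
    ring
  simp only [h1]
  rw [intervalIntegral.integral_finsetSum]
  · unfold Qf
    refine Finset.sum_congr rfl fun i _ => ?_
    rw [intervalIntegral.integral_finsetSum]
    · refine Finset.sum_congr rfl fun j _ => ?_
      rw [intervalIntegral.integral_const_mul, integral_pow]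
      simp only [one_pow, ne_eq, Nat.add_eq_zero_iff, one_ne_zero, and_false, not_false_eq_true,
        zero_pow, sub_zero]
      have : (m : ℝ) + i + 1 / 2 + ((m : ℝ) + j + 1 / 2) = ((2 * m + i + j : ℕ) : ℝ) + 1 := by
        push_cast; ring
      rw [this]; ring
    · intro j _
      exact (Continuous.intervalIntegrable (by fun_prop) _ _)
  · intro i _
    exact (Continuous.intervalIntegrable (by fun_prop) _ _)

/-- Coefficients of `(1 - x) * ∑_{i ≤ N} a i x^i`. -/
def dif (a : ℕ → ℝ) (N : ℕ) : ℕ → ℝ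
  | 0 => if 0 ≤ N then a 0 else 0
  | (i + 1) => (if i + 1 ≤ N then a (i + 1) else 0) - a i

theorem sum_dif (a : ℕ → ℝ) (N : ℕ) (h : ℕ → ℝ) :
    ∑ i ∈ range (N + 2), dif a N i * h i = ∑ i ∈ range (N + 1), a i * (h i - h (i + 1)) := by
  rw [Finset.sum_range_succ' _ (N + 1)]
  have h1 : ∀ i ∈ range (N + 1), dif a N (i + 1) * h (i + 1)
      = (if i + 1 ≤ N then a (i + 1) else 0) * h (i + 1) - a i * h (i + 1) := by
    intro i _
    simp only [dif]; ring
  rw [Finset.sum_congr rfl h1, Finset.sum_sub_distrib]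
  have h2 : ∑ i ∈ range (N + 1), a i * (h i - h (i + 1))
      = ∑ i ∈ range (N + 1), a i * h i - ∑ i ∈ range (N + 1), a i * h (i + 1) := by
    rw [← Finset.sum_sub_distrib]
    exact Finset.sum_congr rfl fun i _ => by ring
  rw [h2]
  have h3 : ∑ i ∈ range (N + 1), (if i + 1 ≤ N then a (i + 1) else 0) * h (i + 1)
      = ∑ i ∈ range N, a (i + 1) * h (i + 1) := by
    rw [Finset.sum_range_succ]
    simp only [add_le_iff_nonpos_right, nonpos_iff_eq_zero, one_ne_zero, ↓reduceIte, zero_mul,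
      add_zero]
    refine Finset.sum_congr rfl fun i hi => ?_
    rw [Finset.mem_range] at hi
    rw [if_pos (by omega)]
  rw [h3, Finset.sum_range_succ' (fun i => a i * h i) N]
  simp only [dif]
  simp
  ring

end Pool.Agent.H874LT
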