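import Mathlib

open Finset Filter Topology MeasureTheory

namespace Pool.Agent.H874LT

/-- The sine kernel. -/
noncomputable def Sk (k : ℕ) (ψ : ℝ) : ℝ :=
  ∑ l ∈ range k, Real.sin (l * (Real.pi / k)) * Real.sin (l * ψ)

/-- The test function. -/
noncomputable def Hk (k : ℕ) (φ : ℝ) : ℝ :=
  ∑ l ∈ range k, Real.sin (l * (Real.pi / k)) / l * Real.cos (l * φ)

theorem continuous_Sk (k : ℕ) : Continuous (Sk k) := by
  unfold Sk; fun_prop

theorem hasDerivAt_Hk (k : ℕ) (x : ℝ) : HasDerivAt (Hk k) (-(Sk k x)) x := by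
  unfold Hk Sk
  rw [← Finset.sum_neg_distrib]
  refine HasDerivAt.fun_sum fun l _ => ?_
  rcases Nat.eq_zero_or_pos l with h | h
  · subst h; simp [hasDerivAt_const]
  · have h0 : (l : ℝ) ≠ 0 := by positivity
    have h1 : HasDerivAt (fun x : ℝ => (l : ℝ) * x) l x := by
      simpa using (hasDerivAt_id x).const_mul (l : ℝ)
    have h2 := (h1.cos).const_mul (Real.sin (l * (Real.pi / k)) / l)
    have h3 : -(Real.sin (l * (Real.pi / k)) * Real.sin (l * x))
        = Real.sin (l * (Real.pi / k)) / l * (-Real.sin (l * x) * l) := by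
      field_simp
    rw [h3]
    exact h2

theorem Hk_sub (k : ℕ) (a b : ℝ) : Hk k a - Hk k b = ∫ x in a..b, Sk k x := by
  have h := intervalIntegral.integral_eq_sub_of_hasDerivAt (a := a) (b := b)
    (f := Hk k) (f' := fun x => -(Sk k x)) (fun x _ => hasDerivAt_Hk k x)
    ((continuous_Sk k).neg.intervalIntegrable _ _)
  rw [intervalIntegral.integral_neg] at h
  linarith

theorem darboux (γ ψ : ℝ) (K : ℕ) :
    2 * (Real.cos ψ - Real.cos γ) * ∑ l ∈ range (K + 1), Real.sin (l * γ) * Real.sin (l * ψ)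
      = Real.sin (K * γ) * Real.sin ((K + 1 : ℕ) * ψ)
        - Real.sin ((K + 1 : ℕ) * γ) * Real.sin (K * ψ) := by
  induction K with
  | zero => simp
  | succ K ih =>
    rw [Finset.sum_range_succ, mul_add, ih]
    have e1 : ∀ t : ℝ, ((K + 1 + 1 : ℕ) : ℝ) * t = ((K + 1 : ℕ) : ℝ) * t + t := by
      intro t; push_cast; ring
    have e2 : ∀ t : ℝ, (K : ℝ) * t = ((K + 1 : ℕ) : ℝ) * t - t := by
      intro t; push_cast; ring
    rw [e1 ψ, e1 γ, e2 ψ, e2 γ, Real.sin_add, Real.sin_add, Real.sin_sub, Real.sin_sub]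
    ring

theorem Sk_mul (k : ℕ) (hk : 1 ≤ k) (ψ : ℝ) :
    2 * (Real.cos ψ - Real.cos (Real.pi / k)) * Sk k ψ
      = Real.sin (Real.pi / k) * Real.sin (k * ψ) := by
  obtain ⟨K, rfl⟩ : ∃ K, k = K + 1 := ⟨k - 1, by omega⟩
  unfold Sk
  rw [darboux]
  have h0 : ((K + 1 : ℕ) : ℝ) ≠ 0 := by positivity
  have h1 : ((K + 1 : ℕ) : ℝ) * (Real.pi / ((K + 1 : ℕ) : ℝ)) = Real.pi := by
    field_simp
  have h2 : (K : ℝ) * (Real.pi / ((K + 1 : ℕ) : ℝ)) = Real.pi - Real.pi / ((K + 1 : ℕ) : ℝ) := by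
    field_simp; push_cast; ring
  rw [h1, h2, Real.sin_pi, Real.sin_pi_sub]; ring

theorem alt_tele (s : ℕ → ℝ) (K : ℕ) :
    ∑ i ∈ range K, (-1 : ℝ) ^ i * (s (i + 1) + s i) = s 0 - (-1) ^ K * s K := by
  induction K with
  | zero => simp
  | succ K ih => rw [Finset.sum_range_succ, ih]; ring

theorem alt_cos (k l : ℕ) (hl : l < k) :
    ∑ i ∈ range k, (-1 : ℝ) ^ i * (Real.cos (l * (i * (Real.pi / k)))
      - Real.cos (l * ((i + 1 : ℕ) * (Real.pi / k)))) = 0 := by
  have hk : (0:ℝ) < k := by exact_mod_cast (by omega : 0 < k)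
  set γ : ℝ := Real.pi / k with hγ
  have hc : 0 < Real.cos (l * γ / 2) := by
    apply Real.cos_pos_of_mem_Ioo
    constructor
    · have : 0 ≤ l * γ / 2 := by positivity
      linarith [Real.pi_pos]
    · have h1 : (l : ℝ) * γ < Real.pi := by
        rw [hγ, mul_div_assoc', div_lt_iff₀ hk, mul_comm]
        have : (l : ℝ) < k := by exact_mod_cast hl
        exact mul_lt_mul_of_pos_left this Real.pi_pos
      linarith
  have h2 : Real.cos (l * γ / 2) * ∑ i ∈ range k, (-1 : ℝ) ^ i * (Real.cos (l * (i * γ))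
      - Real.cos (l * ((i + 1 : ℕ) * γ)))
      = Real.sin (l * γ / 2) * ∑ i ∈ range k, (-1 : ℝ) ^ i *
        (Real.sin (l * ((i + 1 : ℕ) * γ)) + Real.sin (l * (i * γ))) := by
    rw [Finset.mul_sum, Finset.mul_sum]
    refine Finset.sum_congr rfl fun i _ => ?_
    have e1 : (l : ℝ) * (i * γ) = (l * (i * γ) + l * γ / 2) - l * γ / 2 := by ring
    have e2 : (l : ℝ) * ((i + 1 : ℕ) * γ) = (l * (i * γ) + l * γ / 2) + l * γ / 2 := by
      push_cast; ring
    rw [e2]
    have e3 : Real.cos (l * (i * γ)) = Real.cos ((l * (i * γ) + l * γ / 2) - l * γ / 2) := by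
      rw [← e1]
    have e4 : Real.sin (l * (i * γ)) = Real.sin ((l * (i * γ) + l * γ / 2) - l * γ / 2) := by
      rw [← e1]
    rw [e3, e4]
    generalize l * (i * γ) + l * γ / 2 = A
    rw [Real.cos_sub, Real.cos_add, Real.sin_add, Real.sin_sub]
    ring
  have h3 : ∑ i ∈ range k, (-1 : ℝ) ^ i *
        (Real.sin (l * ((i + 1 : ℕ) * γ)) + Real.sin (l * (i * γ))) = 0 := by
    have := alt_tele (fun i => Real.sin (l * (i * γ))) k
    rw [this]
    have h4 : (l : ℝ) * ((k : ℝ) * γ) = l * Real.pi := by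
      rw [hγ]; field_simp
    simp [h4, Real.sin_nat_mul_pi]
  rw [h3, mul_zero] at h2
  rcases mul_eq_zero.mp h2 with h | h
  · exact absurd h hc.ne'
  · exact h

theorem alt_Hk (k : ℕ) :
    ∑ i ∈ range k, (-1 : ℝ) ^ i * (Hk k (i * (Real.pi / k)) - Hk k ((i + 1 : ℕ) * (Real.pi / k)))
      = 0 := by
  unfold Hk
  have : ∀ i ∈ range k, (-1 : ℝ) ^ i * (∑ l ∈ range k, Real.sin (l * (Real.pi / k)) / l
        * Real.cos (l * (i * (Real.pi / k)))
      - ∑ l ∈ range k, Real.sin (l * (Real.pi / k)) / l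
        * Real.cos (l * ((i + 1 : ℕ) * (Real.pi / k))))
      = ∑ l ∈ range k, Real.sin (l * (Real.pi / k)) / l * ((-1 : ℝ) ^ i *
        (Real.cos (l * (i * (Real.pi / k))) - Real.cos (l * ((i + 1 : ℕ) * (Real.pi / k))))) := by
    intro i _
    rw [← Finset.sum_sub_distrib, Finset.mul_sum]
    exact Finset.sum_congr rfl fun l _ => by ring
  rw [Finset.sum_congr rfl this, Finset.sum_comm]
  refine Finset.sum_eq_zero fun l hl => ?_
  rw [← Finset.mul_sum, alt_cos k l (Finset.mem_range.mp hl), mul_zero]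

theorem sin_sign (k i : ℕ) (hk : 0 < k) (x : ℝ) (h1 : i * (Real.pi / k) ≤ x)
    (h2 : x ≤ (i + 1 : ℕ) * (Real.pi / k)) : 0 ≤ (-1 : ℝ) ^ i * Real.sin (k * x) := by
  have hk' : (0:ℝ) < k := by exact_mod_cast hk
  have h3 : Real.sin (k * x) = (-1) ^ i * Real.sin (k * x - i * Real.pi) := by
    rw [Real.sin_sub_nat_mul_pi, ← mul_assoc, ← mul_pow]; norm_num
  have h4 : 0 ≤ Real.sin (k * x - i * Real.pi) := by
    apply Real.sin_nonneg_of_nonneg_of_le_pi
    · have : (k:ℝ) * (i * (Real.pi / k)) ≤ k * x := by gcongr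
      have e : (k:ℝ) * (i * (Real.pi / k)) = i * Real.pi := by field_simp
      linarith
    · have : k * x ≤ (k:ℝ) * ((i + 1 : ℕ) * (Real.pi / k)) := by gcongr
      have e : (k:ℝ) * ((i + 1 : ℕ) * (Real.pi / k)) = (i + 1) * Real.pi := by
        push_cast; field_simp
      linarith
  rw [h3, ← mul_assoc, ← mul_pow]
  simpa using h4

/-- On `[i γ, (i+1) γ]` with `1 ≤ i < k` the kernel has sign `(-1)^(i+1)`. -/
theorem abs_Sk (k i : ℕ) (hi : 1 ≤ i) (hik : i < k) (x : ℝ) (h1 : i * (Real.pi / k) < x)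
    (h2 : x ≤ (i + 1 : ℕ) * (Real.pi / k)) : |Sk k x| = (-1 : ℝ) ^ (i + 1) * Sk k x := by
  have hk' : (0:ℝ) < k := by exact_mod_cast (by omega : 0 < k)
  have hγ : 0 < Real.pi / k := by positivity
  have hxγ : Real.pi / k < x := by
    refine lt_of_le_of_lt ?_ h1
    have : (1:ℝ) ≤ i := by exact_mod_cast hi
    nlinarith
  have hxπ : x ≤ Real.pi := by
    refine h2.trans ?_
    have : ((i + 1 : ℕ) : ℝ) ≤ k := by exact_mod_cast hik
    calc ((i + 1 : ℕ) : ℝ) * (Real.pi / k) ≤ k * (Real.pi / k) := by gcongr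
      _ = Real.pi := by field_simp
  have hneg : Real.cos x - Real.cos (Real.pi / k) < 0 := by
    have := Real.cos_lt_cos_of_nonneg_of_le_pi hγ.le hxπ hxγ
    linarith
  have hs : 0 ≤ Real.sin (Real.pi / k) := by
    apply Real.sin_nonneg_of_nonneg_of_le_pi hγ.le
    rw [div_le_iff₀ hk']
    have : (1:ℝ) ≤ k := by exact_mod_cast (by omega : 1 ≤ k)
    nlinarith [Real.pi_pos]
  have h3 := Sk_mul k (by omega) x
  have h4 := sin_sign k i (by omega) x h1.le h2
  have h5 : 0 ≤ (-1 : ℝ) ^ (i + 1) * Sk k x := by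
    by_contra hcon
    push Not at hcon
    have h6 : 0 < (-1 : ℝ) ^ (i + 1) * (2 * (Real.cos x - Real.cos (Real.pi / k)) * Sk k x) := by
      have : (-1 : ℝ) ^ (i + 1) * (2 * (Real.cos x - Real.cos (Real.pi / k)) * Sk k x)
        = 2 * ((Real.cos x - Real.cos (Real.pi / k)) * ((-1 : ℝ) ^ (i + 1) * Sk k x)) := by ring
      rw [this]
      have := mul_pos_of_neg_of_neg hneg hcon
      linarith
    rw [h3] at h6
    have h7 : (-1 : ℝ) ^ (i + 1) * (Real.sin (Real.pi / k) * Real.sin (k * x))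
        = - (Real.sin (Real.pi / k) * ((-1 : ℝ) ^ i * Real.sin (k * x))) := by
      rw [pow_succ]; ring
    rw [h7] at h6
    have := mul_nonneg hs h4
    linarith
  rw [← abs_of_nonneg h5, abs_mul, abs_pow, abs_neg, abs_one, one_pow, one_mul]

theorem integral_abs_Sk (k : ℕ) (hk : 1 ≤ k) :
    ∫ x in (Real.pi / k)..Real.pi, |Sk k x| = ∫ x in (0:ℝ)..(Real.pi / k), Sk k x := by
  have hk' : (0:ℝ) < k := by exact_mod_cast (by omega : 0 < k)
  have hγ : 0 < Real.pi / k := by positivity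
  obtain ⟨K, rfl⟩ : ∃ K, k = K + 1 := ⟨k - 1, by omega⟩
  set k := K + 1 with hkdef
  -- split the integral
  have h1 : ∑ j ∈ range K, ∫ x in ((j + 1 : ℕ) * (Real.pi / k))..((j + 1 + 1 : ℕ) * (Real.pi / k)),
      |Sk k x| = ∫ x in ((0 + 1 : ℕ) * (Real.pi / k))..((K + 1 : ℕ) * (Real.pi / k)), |Sk k x| := by
    have := intervalIntegral.sum_integral_adjacent_intervals (f := fun x => |Sk k x|)
      (μ := volume) (a := fun j : ℕ => ((j + 1 : ℕ) : ℝ) * (Real.pi / k)) (n := K)
      (fun j _ => ((continuous_Sk k).abs.intervalIntegrable _ _))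
    simpa using this
  have h2 : ∫ x in (Real.pi / k)..Real.pi, |Sk k x|
      = ∫ x in ((0 + 1 : ℕ) * (Real.pi / k))..((K + 1 : ℕ) * (Real.pi / k)), |Sk k x| := by
    congr 1
    · push_cast; ring
    · rw [← hkdef]; field_simp
  rw [h2, ← h1]
  have h3 : ∀ j ∈ range K,
      ∫ x in ((j + 1 : ℕ) * (Real.pi / k))..((j + 1 + 1 : ℕ) * (Real.pi / k)), |Sk k x|
      = (-1 : ℝ) ^ (j + 1 + 1) * (Hk k ((j + 1 : ℕ) * (Real.pi / k))
        - Hk k ((j + 1 + 1 : ℕ) * (Real.pi / k))) := by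
    intro j hj
    rw [Finset.mem_range] at hj
    rw [Hk_sub, ← intervalIntegral.integral_const_mul]
    apply intervalIntegral.integral_congr_ae
    refine Filter.Eventually.of_forall fun x hx => ?_
    have hle : ((j + 1 : ℕ) : ℝ) * (Real.pi / k) ≤ ((j + 1 + 1 : ℕ) : ℝ) * (Real.pi / k) := by
      gcongr; omega
    rw [Set.uIoc_of_le hle] at hx
    exact abs_Sk k (j + 1) (by omega) (by omega) x hx.1 hx.2
  rw [Finset.sum_congr rfl h3, ← Hk_sub]
  have h4 := alt_Hk k
  rw [hkdef, Finset.sum_range_succ'] at h4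
  rw [← hkdef] at h4
  have h5 : ∑ j ∈ range K, (-1 : ℝ) ^ (j + 1 + 1) * (Hk k ((j + 1 : ℕ) * (Real.pi / k))
        - Hk k ((j + 1 + 1 : ℕ) * (Real.pi / k)))
      = - ∑ j ∈ range K, (-1 : ℝ) ^ (j + 1) * (Hk k ((j + 1 : ℕ) * (Real.pi / k))
        - Hk k ((j + 1 + 1 : ℕ) * (Real.pi / k))) := by
    rw [← Finset.sum_neg_distrib]
    exact Finset.sum_congr rfl fun j _ => by ring
  rw [h5]
  simp only [pow_zero, Nat.cast_zero, zero_mul, zero_add, Nat.cast_one, one_mul] at h4
  linarith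

/-- Lower bound for the kernel just after its first node. -/
theorem Sk_lower (k : ℕ) (hk : 2 ≤ k) (x : ℝ) (h1 : Real.pi / k < x)
    (h2 : x ≤ 3 / 2 * (Real.pi / k)) : 2 / Real.pi ≤ Sk k x := by
  have hk' : (0:ℝ) < k := by exact_mod_cast (by omega : 0 < k)
  have hk2 : (2:ℝ) ≤ k := by exact_mod_cast hk
  have hπ := Real.pi_pos
  have hγ : 0 < Real.pi / k := by positivity
  have hγ2 : Real.pi / k ≤ Real.pi / 2 := by
    apply div_le_div_of_nonneg_left hπ.le (by norm_num) hk2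
  have hxπ : x ≤ Real.pi := by linarith
  have hpos : 0 < Real.cos (Real.pi / k) - Real.cos x := by
    have := Real.cos_lt_cos_of_nonneg_of_le_pi hγ.le hxπ h1
    linarith
  have hle : Real.cos (Real.pi / k) - Real.cos x ≤ x - Real.pi / k := by
    rw [Real.cos_sub_cos]
    have e1 : Real.sin ((Real.pi / k - x) / 2) = - Real.sin ((x - Real.pi / k) / 2) := by
      rw [← Real.sin_neg]; congr 1; ring
    rw [e1]
    have e2 : 0 ≤ Real.sin ((x - Real.pi / k) / 2) := by
      apply Real.sin_nonneg_of_nonneg_of_le_pi <;> linarith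
    have e3 : Real.sin ((x - Real.pi / k) / 2) ≤ (x - Real.pi / k) / 2 :=
      Real.sin_le (by linarith)
    have e4 := Real.sin_le_one ((Real.pi / k + x) / 2)
    nlinarith
  have h3 := Sk_mul k (by omega) x
  have h4 : Real.sin (k * x) = - Real.sin (k * (x - Real.pi / k)) := by
    have : (k:ℝ) * x = k * (x - Real.pi / k) + Real.pi := by field_simp; ring
    rw [this, Real.sin_add_pi]
  have h5 : 2 / Real.pi * (k * (x - Real.pi / k)) ≤ Real.sin (k * (x - Real.pi / k)) := by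
    apply Real.mul_le_sin
    · have : 0 ≤ x - Real.pi / k := by linarith
      positivity
    · have : (k:ℝ) * (x - Real.pi / k) ≤ k * (1 / 2 * (Real.pi / k)) := by
        gcongr; linarith
      have e : (k:ℝ) * (1 / 2 * (Real.pi / k)) = Real.pi / 2 := by field_simp
      linarith
  have h6 : 2 / Real.pi * (Real.pi / k) ≤ Real.sin (Real.pi / k) :=
    Real.mul_le_sin hγ.le hγ2
  have h6' : 2 / k ≤ Real.sin (Real.pi / k) := by
    have : 2 / Real.pi * (Real.pi / k) = 2 / k := by field_simp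
    linarith
  -- combine
  have h7 : 2 * (Real.cos (Real.pi / k) - Real.cos x) * Sk k x
      = Real.sin (Real.pi / k) * Real.sin (k * (x - Real.pi / k)) := by
    rw [h4] at h3; linarith
  have h8 : (2 / k) * (2 / Real.pi * (k * (x - Real.pi / k)))
      ≤ Real.sin (Real.pi / k) * Real.sin (k * (x - Real.pi / k)) := by
    apply mul_le_mul h6' h5
    · have : 0 ≤ x - Real.pi / k := by linarith
      positivity
    · exact le_trans (by positivity) h6'
  have h9 : (2 / (k:ℝ)) * (2 / Real.pi * (k * (x - Real.pi / k)))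
      = 2 * (x - Real.pi / k) * (2 / Real.pi) := by field_simp
  rw [h9, ← h7] at h8
  by_contra hcon
  push Not at hcon
  have h10 : 2 * (Real.cos (Real.pi / k) - Real.cos x) * Sk k x
      < 2 * (Real.cos (Real.pi / k) - Real.cos x) * (2 / Real.pi) := by
    apply mul_lt_mul_of_pos_left hcon (by linarith)
  have h11 : 2 * (Real.cos (Real.pi / k) - Real.cos x) * (2 / Real.pi)
      ≤ 2 * (x - Real.pi / k) * (2 / Real.pi) := by
    gcongr
  linarith

/-- Key inequality: the jump of the test function at the start beats its later variation. -/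
theorem variation (k N : ℕ) (hk : 2 ≤ k) (φ a : ℕ → ℝ) (hφ0 : φ 0 = 0)
    (hφ1 : Real.pi / k ≤ φ 1) (hφ1' : φ 1 ≤ 3 / 2 * (Real.pi / k))
    (hmono : ∀ i, 1 ≤ i → i ≤ N → φ i ≤ φ (i + 1)) (hπ : φ (N + 1) ≤ Real.pi)
    (ha0 : |a 0| = 1) (ha : ∀ i ≤ N, |a i| ≤ 1) :
    4 / Real.pi * (φ 1 - Real.pi / k)
      ≤ |∑ i ∈ range (N + 1), a i * (Hk k (φ i) - Hk k (φ (i + 1)))| := by
  have hk' : (0:ℝ) < k := by exact_mod_cast (by omega : 0 < k)
  have hγ : 0 < Real.pi / k := div_pos Real.pi_pos hk'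
  rw [Finset.sum_range_succ']
  have h1 : |∑ i ∈ range N, a (i + 1) * (Hk k (φ (i + 1)) - Hk k (φ (i + 1 + 1)))|
      ≤ ∫ x in (φ 1)..(φ (N + 1)), |Sk k x| := by
    calc |∑ i ∈ range N, a (i + 1) * (Hk k (φ (i + 1)) - Hk k (φ (i + 1 + 1)))|
        ≤ ∑ i ∈ range N, |a (i + 1) * (Hk k (φ (i + 1)) - Hk k (φ (i + 1 + 1)))| :=
          Finset.abs_sum_le_sum_abs _ _
      _ ≤ ∑ i ∈ range N, ∫ x in (φ (i + 1))..(φ (i + 1 + 1)), |Sk k x| := by
          refine Finset.sum_le_sum fun i hi => ?_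
          rw [Finset.mem_range] at hi
          rw [abs_mul, Hk_sub]
          calc |a (i + 1)| * |∫ x in (φ (i + 1))..(φ (i + 1 + 1)), Sk k x|
              ≤ 1 * |∫ x in (φ (i + 1))..(φ (i + 1 + 1)), Sk k x| := by
                gcongr; exact ha _ (by omega)
            _ ≤ _ := by
                rw [one_mul]
                exact intervalIntegral.abs_integral_le_integral_abs
                  (hmono (i + 1) (by omega) (by omega))
      _ = ∫ x in (φ 1)..(φ (N + 1)), |Sk k x| := by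
          have := intervalIntegral.sum_integral_adjacent_intervals (f := fun x => |Sk k x|)
            (μ := volume) (a := fun j : ℕ => φ (j + 1)) (n := N)
            (fun j _ => ((continuous_Sk k).abs.intervalIntegrable _ _))
          simpa using this
  have hmono' : φ 1 ≤ φ (N + 1) := by
    have : ∀ n, n ≤ N → φ 1 ≤ φ (n + 1) := by
      intro n
      induction n with
      | zero => intro _; simp
      | succ n ih => intro hn; exact (ih (by omega)).trans (hmono (n + 1) (by omega) (by omega))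
    exact this N le_rfl
  have hii : ∀ a b : ℝ, IntervalIntegrable (fun x => |Sk k x|) volume a b :=
    fun a b => (continuous_Sk k).abs.intervalIntegrable _ _
  have hii' : ∀ a b : ℝ, IntervalIntegrable (fun x => Sk k x) volume a b :=
    fun a b => (continuous_Sk k).intervalIntegrable _ _
  have h2 : ∫ x in (φ 1)..(φ (N + 1)), |Sk k x| ≤ ∫ x in (φ 1)..Real.pi, |Sk k x| := by
    rw [← intervalIntegral.integral_add_adjacent_intervals (hii (φ 1) (φ (N + 1)))
      (hii (φ (N + 1)) Real.pi)]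
    have : 0 ≤ ∫ x in (φ (N + 1))..Real.pi, |Sk k x| :=
      intervalIntegral.integral_nonneg hπ fun x _ => abs_nonneg _
    linarith
  have h3 : (∫ x in (Real.pi / k)..(φ 1), |Sk k x|) + (∫ x in (φ 1)..Real.pi, |Sk k x|)
      = ∫ x in (0:ℝ)..(Real.pi / k), Sk k x := by
    rw [← integral_abs_Sk k (by omega)]
    exact intervalIntegral.integral_add_adjacent_intervals (hii _ _) (hii _ _)
  have h4 : Hk k (φ 0) - Hk k (φ 1)
      = (∫ x in (0:ℝ)..(Real.pi / k), Sk k x) + ∫ x in (Real.pi / k)..(φ 1), Sk k x := by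
    rw [Hk_sub, hφ0]
    exact (intervalIntegral.integral_add_adjacent_intervals (hii' _ _) (hii' _ _)).symm
  have h5 : 2 / Real.pi * (φ 1 - Real.pi / k) ≤ ∫ x in (Real.pi / k)..(φ 1), Sk k x := by
    have : ∫ x in (Real.pi / k)..(φ 1), (2 / Real.pi : ℝ)
        ≤ ∫ x in (Real.pi / k)..(φ 1), Sk k x := by
      apply intervalIntegral.integral_mono_on_of_le_Ioo hφ1
        (intervalIntegrable_const) (hii' _ _)
      intro x hx
      exact Sk_lower k hk x hx.1 (hx.2.le.trans hφ1')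
    rw [intervalIntegral.integral_const, smul_eq_mul] at this
    linarith
  have h6 : (∫ x in (Real.pi / k)..(φ 1), Sk k x) ≤ ∫ x in (Real.pi / k)..(φ 1), |Sk k x| :=
    intervalIntegral.integral_mono_on hφ1 (hii' _ _) (hii _ _) fun x _ => le_abs_self _
  have h7 : 0 ≤ Hk k (φ 0) - Hk k (φ 1) := by
    rw [h4]
    have : 0 ≤ ∫ x in (0:ℝ)..(Real.pi / k), Sk k x := by
      rw [← integral_abs_Sk k (by omega)]
      apply intervalIntegral.integral_nonneg
      · rw [div_le_iff₀ hk']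
        have : (1:ℝ) ≤ k := by exact_mod_cast (by omega : 1 ≤ k)
        nlinarith [Real.pi_pos]
      · intro x _; exact abs_nonneg _
    have h8 : 0 ≤ 2 / Real.pi * (φ 1 - Real.pi / k) := by
      have := Real.pi_pos
      have : 0 ≤ φ 1 - Real.pi / k := by linarith
      positivity
    linarith
  have h9 : |a 0 * (Hk k (φ 0) - Hk k (φ (0 + 1)))| = Hk k (φ 0) - Hk k (φ 1) := by
    rw [abs_mul, ha0, one_mul, zero_add, abs_of_nonneg h7]
  have h10 := abs_sub_abs_le_abs_sub (a 0 * (Hk k (φ 0) - Hk k (φ (0 + 1))))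
    (-(∑ i ∈ range N, a (i + 1) * (Hk k (φ (i + 1)) - Hk k (φ (i + 1 + 1)))))
  rw [abs_neg, h9, sub_neg_eq_add, add_comm (a 0 * _)] at h10
  refine le_trans ?_ h10
  have h11 : 4 / Real.pi * (φ 1 - Real.pi / k)
      = 2 / Real.pi * (φ 1 - Real.pi / k) + 2 / Real.pi * (φ 1 - Real.pi / k) := by ring
  rw [h11, h4]
  linarith

end Pool.Agent.H874LT
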