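import Pool.Agent.H874LT.Cheb
import Pool.Agent.H874LT.Var

open Finset Filter Topology MeasureTheory

namespace Pool.Agent.H874LT

/-- The Cayley variable. -/
noncomputable def vv (m : ℕ) (u : ℝ) (i : ℕ) : ℝ :=
  ((m : ℝ) + i + 1 / 2 - u) / ((m : ℝ) + i + 1 / 2 + u)

theorem vv_mono (m : ℕ) (u : ℝ) (hu : 0 < u) {i j : ℕ} (hij : i ≤ j) : vv m u i ≤ vv m u j := by
  unfold vv
  have h : (i : ℝ) ≤ j := by exact_mod_cast hij
  rw [div_le_div_iff₀ (by positivity) (by positivity)]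
  nlinarith

/-- The angles. -/
noncomputable def ang (m : ℕ) (u v0 : ℝ) (i : ℕ) : ℝ := Real.arccos (-(vv m u i) / v0)

theorem ang_mono (m : ℕ) (u v0 : ℝ) (hu : 0 < u) (hv0 : 0 < v0) {i j : ℕ} (hij : i ≤ j) :
    ang m u v0 i ≤ ang m u v0 j := by
  unfold ang
  apply Real.arccos_le_arccos
  have := vv_mono m u hu hij
  gcongr

theorem Q_le (m N : ℕ) (a : ℕ → ℝ) (M : ℝ)
    (hM : ∀ x ∈ Set.Icc (0:ℝ) 1, |∑ i ∈ range (N + 1), a i * x ^ (m + i)| ≤ M) :
    Qf (range (N + 2)) (fun i => (m : ℝ) + i + 1 / 2) (dif a N) ≤ M ^ 2 := by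
  rw [Qf_eq_integral]
  have h1 : ∀ x ∈ Set.Icc (0:ℝ) 1, (∑ i ∈ range (N + 2), dif a N i * x ^ (m + i)) ^ 2 ≤ M ^ 2 := by
    intro x hx
    rw [sum_dif]
    have h2 : ∑ i ∈ range (N + 1), a i * (x ^ (m + i) - x ^ (m + (i + 1)))
        = (1 - x) * ∑ i ∈ range (N + 1), a i * x ^ (m + i) := by
      rw [Finset.mul_sum]
      refine Finset.sum_congr rfl fun i _ => ?_
      rw [show m + (i + 1) = (m + i) + 1 by ring, pow_succ]; ring
    rw [h2, mul_pow, ← sq_abs (∑ i ∈ range (N + 1), a i * x ^ (m + i))]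
    have h3 := hM x hx
    have h4 : (1 - x) ^ 2 ≤ 1 := by nlinarith [hx.1, hx.2]
    calc (1 - x) ^ 2 * |∑ i ∈ range (N + 1), a i * x ^ (m + i)| ^ 2
        ≤ 1 * M ^ 2 := by gcongr
      _ = M ^ 2 := one_mul _
  calc ∫ x in (0:ℝ)..1, (∑ i ∈ range (N + 2), dif a N i * x ^ (m + i)) ^ 2
      ≤ ∫ x in (0:ℝ)..1, M ^ 2 := by
        apply intervalIntegral.integral_mono_on zero_le_one
        · exact Continuous.intervalIntegrable (by fun_prop) _ _
        · exact intervalIntegrable_const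
        · exact h1
    _ = M ^ 2 := by simp

theorem core (m N k : ℕ) (a : ℕ → ℝ) (M Y r : ℝ)
    (hM : ∀ x ∈ Set.Icc (0:ℝ) 1, |∑ i ∈ range (N + 1), a i * x ^ (m + i)| ≤ M)
    (ha0 : |a 0| = 1) (ha : ∀ i ≤ N, |a i| ≤ 1)
    (hr0 : 0 < r) (hr1 : r < 1) (hY : r ^ 2 * Y = m + 1 / 2) (hYN : (m : ℝ) + N + 3 / 2 ≤ Y)
    (hk : 2 ≤ k)
    (h1 : Real.pi / k ≤ ang m (r * Y) ((1 - r) / (1 + r)) 1)
    (h2 : ang m (r * Y) ((1 - r) / (1 + r)) 1 ≤ 3 / 2 * (Real.pi / k)) :
    4 / Real.pi * (ang m (r * Y) ((1 - r) / (1 + r)) 1 - Real.pi / k)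
      ≤ Real.pi * (Real.sqrt (2 * (r * Y) * k) * M)
        * Real.exp (Real.arsinh ((1 + r) / (1 - r))) ^ (k - 1) := by
  have hY0 : 0 < Y := by
    have : (0:ℝ) ≤ m := by positivity
    have : (0:ℝ) ≤ N := by positivity
    linarith
  set u := r * Y with hu
  have hu0 : 0 < u := by positivity
  set v0 := (1 - r) / (1 + r) with hv0
  have h1r : 0 < 1 - r := by linarith
  have hv00 : 0 < v0 := by positivity
  have hM0 : 0 ≤ M := le_trans (abs_nonneg _) (hM 0 ⟨le_rfl, zero_le_one⟩)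
  have hk' : (0:ℝ) < k := by exact_mod_cast (by omega : 0 < k)
  -- ρ
  set ρ := Real.exp (Real.arsinh ((1 + r) / (1 - r))) with hρ
  have hinv : 1 / v0 = (1 + r) / (1 - r) := by rw [hv0]; field_simp
  have hρe : ρ = 1 / v0 + Real.sqrt (1 + (1 / v0) ^ 2) := by
    rw [hρ, Real.exp_arsinh, hinv]
  have hρ2 : ρ ^ 2 = 2 / v0 * ρ + 1 := by
    have hs : Real.sqrt (1 + (1 / v0) ^ 2) ^ 2 = 1 + (1 / v0) ^ 2 :=
      Real.sq_sqrt (by positivity)
    rw [hρe]
    have : 2 / v0 = 2 * (1 / v0) := by ring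
    rw [this]
    nlinarith [hs]
  have hρ1 : 1 / v0 ≤ ρ := by
    rw [hρe]; linarith [Real.sqrt_nonneg (1 + (1 / v0) ^ 2)]
  have hρone : 1 ≤ ρ := by
    refine le_trans ?_ hρ1
    rw [hinv, le_div_iff₀ h1r]; linarith
  -- range of the Cayley variable
  have hvlo : vv m u 0 = - v0 := by
    unfold vv
    have e : (m : ℝ) + (0 : ℕ) + 1 / 2 = r ^ 2 * Y := by rw [hY]; simp
    rw [e, hu, hv0]
    field_simp
    ring
  have hvhi : ∀ i ∈ range (N + 2), vv m u i ≤ v0 := by
    intro i hi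
    have hi' : (i : ℝ) ≤ N + 1 := by
      rw [Finset.mem_range] at hi
      exact_mod_cast (by omega : i ≤ N + 1)
    unfold vv
    rw [hv0, div_le_div_iff₀ (by positivity) (by positivity)]
    have hyi : (m : ℝ) + i + 1 / 2 ≤ Y := by linarith
    rw [hu]
    nlinarith
  have hvlo' : ∀ i, - v0 ≤ vv m u i := by
    intro i
    rw [← hvlo]; exact vv_mono m u hu0 (Nat.zero_le i)
  have hcos : ∀ i ∈ range (N + 2), vv m u i = - v0 * Real.cos (ang m u v0 i) := by
    intro i hi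
    unfold ang
    rw [Real.cos_arccos]
    · field_simp
    · rw [le_div_iff₀ hv00]; linarith [hvhi i hi]
    · rw [div_le_iff₀ hv00]; linarith [hvlo' i]
  -- power sums
  set c := dif a N with hc
  have hQ := Q_le m N a M hM
  have hc0 : ∑ i ∈ range (N + 2), c i = 0 := by
    have := sum_dif a N (fun _ => 1)
    simpa using this
  set B := Real.sqrt (2 * u * k) * M with hB
  have hB0 : 0 ≤ B := by positivity
  have hpow : ∀ j ≤ k - 1, |∑ i ∈ range (N + 2), c i * vv m u i ^ j| ≤ B := by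
    intro j hj
    have h3 := powsum_sq_le (range (N + 2)) (fun i => (m : ℝ) + i + 1 / 2) c u hu0
      (fun i _ => by positivity) hc0 j
    have hj' : (j : ℝ) ≤ k := by exact_mod_cast (by omega : j ≤ k)
    have h4 : (∑ i ∈ range (N + 2), c i * vv m u i ^ j) ^ 2 ≤ B ^ 2 := by
      calc (∑ i ∈ range (N + 2), c i * vv m u i ^ j) ^ 2
          ≤ 2 * u * j * Qf (range (N + 2)) (fun i => (m : ℝ) + i + 1 / 2) c := h3
        _ ≤ 2 * u * k * M ^ 2 := by
            have hQ0 := Qf_nonneg (range (N + 2)) (fun i => (m : ℝ) + i + 1 / 2) c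
              (fun i _ => by positivity)
            gcongr
        _ = B ^ 2 := by
            rw [hB, mul_pow, Real.sq_sqrt (by positivity)]
    exact abs_le_of_sq_le_sq h4 hB0
  have hcheb := cheb_bound (range (N + 2)) c (vv m u) (ang m u v0) v0 ρ B hv00 hcos hρ2 hρ1 hB0
    (k - 1) hpow
  -- variation
  have hφ0 : ang m u v0 0 = 0 := by
    unfold ang
    rw [hvlo, neg_neg, div_self hv00.ne', Real.arccos_one]
  have hvar := variation k N hk (ang m u v0) a hφ0 h1 h2
    (fun i _ _ => ang_mono m u v0 hu0 hv00 (Nat.le_succ i)) (Real.arccos_le_pi _) ha0 ha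
  refine hvar.trans ?_
  have hrew := sum_dif a N (fun i => Hk k (ang m u v0 i))
  rw [← hrew]
  have hswap : ∑ i ∈ range (N + 2), dif a N i * Hk k (ang m u v0 i)
      = ∑ l ∈ range k, Real.sin (l * (Real.pi / k)) / l *
        ∑ i ∈ range (N + 2), c i * vv m u i ^ 0 * Real.cos (l * ang m u v0 i) := by
    unfold Hk
    simp only [Finset.mul_sum]
    rw [Finset.sum_comm]
    refine Finset.sum_congr rfl fun l _ => Finset.sum_congr rfl fun i _ => ?_
    rw [hc]; ring
  rw [hswap]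
  have hγ : 0 < Real.pi / k := div_pos Real.pi_pos hk'
  calc |∑ l ∈ range k, Real.sin (l * (Real.pi / k)) / l *
        ∑ i ∈ range (N + 2), c i * vv m u i ^ 0 * Real.cos (l * ang m u v0 i)|
      ≤ ∑ l ∈ range k, |Real.sin (l * (Real.pi / k)) / l *
        ∑ i ∈ range (N + 2), c i * vv m u i ^ 0 * Real.cos (l * ang m u v0 i)| :=
        Finset.abs_sum_le_sum_abs _ _
    _ ≤ ∑ l ∈ range k, (Real.pi / k) * (B * ρ ^ (k - 1)) := by
        refine Finset.sum_le_sum fun l hl => ?_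
        rw [Finset.mem_range] at hl
        rw [abs_mul]
        have e1 : |Real.sin (l * (Real.pi / k)) / l| ≤ Real.pi / k := by
          rcases Nat.eq_zero_or_pos l with h | h
          · subst h; simp [hγ.le]
          · have hl0 : (0:ℝ) < l := by exact_mod_cast h
            rw [abs_div, abs_of_pos hl0, div_le_iff₀ hl0]
            calc |Real.sin (l * (Real.pi / k))| ≤ |l * (Real.pi / k)| := Real.abs_sin_le_abs
              _ = Real.pi / k * l := by rw [abs_of_pos (by positivity)]; ring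
        have e2 : |∑ i ∈ range (N + 2), c i * vv m u i ^ 0 * Real.cos (l * ang m u v0 i)|
            ≤ B * ρ ^ (k - 1) := by
          refine (hcheb l 0 (by omega)).trans ?_
          gcongr
          omega
        exact mul_le_mul e1 e2 (abs_nonneg _) hγ.le
    _ = Real.pi * B * ρ ^ (k - 1) := by
        rw [Finset.sum_const, Finset.card_range, nsmul_eq_mul]
        field_simp

end Pool.Agent.H874LT
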