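import Mathlib

open Polynomial Filter Topology

namespace Pool.Agent.H874LT

/-- Membership in the class `F_n`: integer polynomials of degree at most `n` all of whose
coefficients are `-1`, `0` or `1`. -/
def InF (n : ℕ) (p : ℤ[X]) : Prop :=
  p.natDegree ≤ n ∧ ∀ i, p.coeff i = -1 ∨ p.coeff i = 0 ∨ p.coeff i = 1

/-- The sup norm on `[0,1]`. -/
noncomputable def supNorm (p : ℤ[X]) : ℝ :=
  sSup ((fun x : ℝ => |aeval x p|) '' Set.Icc 0 1)

/-- `μ_n`, the least sup norm on `[0,1]` of a nonzero member of `F_n`. -/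
noncomputable def mu (n : ℕ) : ℝ :=
  sInf {t : ℝ | ∃ p : ℤ[X], p ≠ 0 ∧ InF n p ∧ t = supNorm p}

theorem bdd (p : ℤ[X]) : BddAbove ((fun x : ℝ => |aeval x p|) '' Set.Icc 0 1) := by
  apply IsCompact.bddAbove
  apply isCompact_Icc.image
  exact (Polynomial.continuous_aeval p).abs

theorem le_supNorm (p : ℤ[X]) (x : ℝ) (hx : x ∈ Set.Icc (0:ℝ) 1) : |aeval x p| ≤ supNorm p :=
  le_csSup (bdd p) ⟨x, hx, rfl⟩

theorem supNorm_le (p : ℤ[X]) (B : ℝ) (h : ∀ x ∈ Set.Icc (0:ℝ) 1, |aeval x p| ≤ B) :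
    supNorm p ≤ B := by
  apply csSup_le
  · exact ⟨_, 0, by simp, rfl⟩
  · rintro _ ⟨x, hx, rfl⟩
    exact h x hx

theorem supNorm_nonneg (p : ℤ[X]) : 0 ≤ supNorm p :=
  le_trans (abs_nonneg _) (le_supNorm p 0 (by simp))

theorem le_mu (n : ℕ) (B : ℝ) (h : ∀ p : ℤ[X], p ≠ 0 → InF n p → B ≤ supNorm p) : B ≤ mu n := by
  apply le_csInf
  · refine ⟨supNorm 1, 1, one_ne_zero, ⟨by simp, ?_⟩, rfl⟩
    intro i
    rw [Polynomial.coeff_one]
    split_ifs <;> simp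
  · rintro _ ⟨p, hp, hF, rfl⟩
    exact h p hp hF

theorem mu_le (n : ℕ) (p : ℤ[X]) (hp : p ≠ 0) (hF : InF n p) : mu n ≤ supNorm p := by
  apply csInf_le
  · exact ⟨0, by rintro _ ⟨q, _, _, rfl⟩; exact supNorm_nonneg q⟩
  · exact ⟨p, hp, hF, rfl⟩

/-- Polynomial growth is beaten by `exp (-b √n)`. -/
theorem event (b C : ℝ) (hb : 0 < b) (d : ℕ) :
    ∀ᶠ n : ℕ in atTop, C * (n : ℝ) ^ d * Real.exp (-(b * Real.sqrt n)) ≤ 1 := by
  have h1 : Tendsto (fun n : ℕ => b * Real.sqrt n) atTop atTop := by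
    apply Tendsto.const_mul_atTop hb
    exact Real.tendsto_sqrt_atTop.comp tendsto_natCast_atTop_atTop
  have h2 := ((Real.tendsto_pow_mul_exp_neg_atTop_nhds_zero (2 * d)).comp h1).const_mul
    (C / b ^ (2 * d))
  rw [mul_zero] at h2
  have h3 := h2.eventually (gt_mem_nhds (zero_lt_one))
  filter_upwards [h3] with n hn
  have e : C * (n : ℝ) ^ d * Real.exp (-(b * Real.sqrt n))
      = C / b ^ (2 * d) * ((fun x : ℝ => x ^ (2 * d) * Real.exp (-x)) ∘
        fun n : ℕ => b * Real.sqrt n) n := by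
    simp only [Function.comp]
    rw [mul_pow, pow_mul (Real.sqrt n), Real.sq_sqrt (Nat.cast_nonneg n)]
    field_simp
  rw [e]; exact hn.le

end Pool.Agent.H874LT
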