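import Mathlib

open Finset Filter Topology

namespace Pool.Agent.H874LT

/-- The quadratic form with the Cauchy kernel `1 / (y i + y j)`. -/
noncomputable def Qf (s : Finset ℕ) (y c : ℕ → ℝ) : ℝ :=
  ∑ i ∈ s, ∑ j ∈ s, c i * c j / (y i + y j)

theorem Qf_step (s : Finset ℕ) (y c : ℕ → ℝ) (u : ℝ) (hu : 0 < u) (hy : ∀ i ∈ s, 0 < y i) :
    Qf s y c = 2 * u * (∑ i ∈ s, c i / (y i + u)) ^ 2
      + Qf s y (fun i => (y i - u) / (y i + u) * c i) := by
  have key : Qf s y c - Qf s y (fun i => (y i - u) / (y i + u) * c i)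
      = 2 * u * (∑ i ∈ s, c i / (y i + u)) ^ 2 := by
    unfold Qf
    rw [← Finset.sum_sub_distrib, sq, Finset.sum_mul_sum, Finset.mul_sum]
    refine Finset.sum_congr rfl fun i hi => ?_
    rw [← Finset.sum_sub_distrib, Finset.mul_sum]
    refine Finset.sum_congr rfl fun j hj => ?_
    have h1 := hy i hi
    have h2 := hy j hj
    have h3 : y i + u ≠ 0 := by positivity
    have h4 : y j + u ≠ 0 := by positivity
    have h5 : y i + y j ≠ 0 := by positivity
    field_simp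
    ring
  linarith

theorem Qf_iter (s : Finset ℕ) (y c : ℕ → ℝ) (u : ℝ) (hu : 0 < u) (hy : ∀ i ∈ s, 0 < y i)
    (K : ℕ) :
    Qf s y c = ∑ k ∈ range K, 2 * u * (∑ i ∈ s, ((y i - u) / (y i + u)) ^ k * c i / (y i + u)) ^ 2
      + Qf s y (fun i => ((y i - u) / (y i + u)) ^ K * c i) := by
  induction K with
  | zero => simp
  | succ K ih =>
    rw [Finset.sum_range_succ, ih]
    rw [Qf_step s y (fun i => ((y i - u) / (y i + u)) ^ K * c i) u hu hy]
    have : (fun i => (y i - u) / (y i + u) * (((y i - u) / (y i + u)) ^ K * c i))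
        = (fun i => ((y i - u) / (y i + u)) ^ (K + 1) * c i) := by
      funext i; ring
    rw [this]
    ring

theorem abs_v_lt_one {y u : ℝ} (hu : 0 < u) (hy : 0 < y) : |(y - u) / (y + u)| < 1 := by
  rw [abs_div, abs_of_pos (by positivity : (0:ℝ) < y + u), div_lt_one (by positivity)]
  rw [abs_lt]; constructor <;> linarith

theorem Qf_tendsto (s : Finset ℕ) (y c : ℕ → ℝ) (u : ℝ) (hu : 0 < u) (hy : ∀ i ∈ s, 0 < y i) :
    Tendsto (fun K : ℕ => Qf s y (fun i => ((y i - u) / (y i + u)) ^ K * c i)) atTop (𝓝 0) := by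
  unfold Qf
  have : (0:ℝ) = ∑ i ∈ s, ∑ j ∈ s, (0:ℝ) := by simp
  rw [this]
  refine tendsto_finset_sum _ fun i hi => tendsto_finset_sum _ fun j hj => ?_
  have h1 : Tendsto (fun K : ℕ => ((y i - u) / (y i + u)) ^ K) atTop (𝓝 0) :=
    tendsto_pow_atTop_nhds_zero_of_abs_lt_one (abs_v_lt_one hu (hy i hi))
  have h2 : Tendsto (fun K : ℕ => ((y j - u) / (y j + u)) ^ K) atTop (𝓝 0) :=
    tendsto_pow_atTop_nhds_zero_of_abs_lt_one (abs_v_lt_one hu (hy j hj))
  have h3 := ((h1.mul_const (c i)).mul (h2.mul_const (c j))).div_const (y i + y j)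
  simpa using h3

theorem Qf_nonneg (s : Finset ℕ) (y c : ℕ → ℝ) (hy : ∀ i ∈ s, 0 < y i) : 0 ≤ Qf s y c := by
  have h := Qf_tendsto s y c 1 one_pos hy
  refine le_of_tendsto h (Eventually.of_forall fun K => ?_)
  rw [Qf_iter s y c 1 one_pos hy K]
  have : 0 ≤ ∑ k ∈ range K,
      2 * (1:ℝ) * (∑ i ∈ s, ((y i - 1) / (y i + 1)) ^ k * c i / (y i + 1)) ^ 2 :=
    Finset.sum_nonneg fun k _ => by positivity
  linarith

theorem sum_sq_le_Qf (s : Finset ℕ) (y c : ℕ → ℝ) (u : ℝ) (hu : 0 < u) (hy : ∀ i ∈ s, 0 < y i)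
    (K : ℕ) :
    2 * u * ∑ k ∈ range K, (∑ i ∈ s, ((y i - u) / (y i + u)) ^ k * c i / (y i + u)) ^ 2
      ≤ Qf s y c := by
  rw [Qf_iter s y c u hu hy K, ← Finset.mul_sum]
  have := Qf_nonneg s y (fun i => ((y i - u) / (y i + u)) ^ K * c i) hy
  linarith

/-- Power sums of a sequence with vanishing sum are controlled by the quadratic form. -/
theorem powsum_sq_le (s : Finset ℕ) (y c : ℕ → ℝ) (u : ℝ) (hu : 0 < u) (hy : ∀ i ∈ s, 0 < y i)
    (hc : ∑ i ∈ s, c i = 0) (K : ℕ) :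
    (∑ i ∈ s, c i * ((y i - u) / (y i + u)) ^ K) ^ 2 ≤ 2 * u * K * Qf s y c := by
  set β : ℕ → ℝ := fun k => ∑ i ∈ s, ((y i - u) / (y i + u)) ^ k * c i / (y i + u) with hβ
  have h1 : ∑ i ∈ s, c i * ((y i - u) / (y i + u)) ^ K = - (2 * u) * ∑ k ∈ range K, β k := by
    have h2 : ∑ i ∈ s, c i * ((y i - u) / (y i + u)) ^ K
        = ∑ i ∈ s, c i * (((y i - u) / (y i + u)) ^ K - 1) := by
      rw [← sub_eq_zero, ← Finset.sum_sub_distrib]
      have : ∀ i ∈ s, c i * ((y i - u) / (y i + u)) ^ K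
          - c i * (((y i - u) / (y i + u)) ^ K - 1) = c i := fun i _ => by ring
      rw [Finset.sum_congr rfl this, hc]
    rw [h2, hβ, Finset.mul_sum]
    simp only [Finset.mul_sum]
    rw [Finset.sum_comm]
    refine Finset.sum_congr rfl fun i hi => ?_
    have hyi := hy i hi
    have h3 : y i + u ≠ 0 := by positivity
    rw [← geom_sum_mul]
    rw [Finset.sum_mul, Finset.mul_sum]
    refine Finset.sum_congr rfl fun k _ => ?_
    have h4 : (y i - u) / (y i + u) - 1 = - (2 * u) / (y i + u) := by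
      field_simp; ring
    rw [h4]
    field_simp
  rw [h1]
  have h5 : (∑ k ∈ range K, β k) ^ 2 ≤ K * ∑ k ∈ range K, (β k) ^ 2 := by
    have := @sq_sum_le_card_mul_sum_sq ℕ ℝ _ _ _ _ (range K) β
    simpa using this
  have h6 := sum_sq_le_Qf s y c u hu hy K
  have h7 : (-(2 * u) * ∑ k ∈ range K, β k) ^ 2 = (2 * u) * ((2 * u) * (∑ k ∈ range K, β k) ^ 2) := by
    ring
  rw [h7]
  have h8 : (2 * u) * (∑ k ∈ range K, β k) ^ 2 ≤ K * Qf s y c := by
    calc (2 * u) * (∑ k ∈ range K, β k) ^ 2 ≤ (2 * u) * (K * ∑ k ∈ range K, (β k) ^ 2) := by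
          gcongr
      _ = K * (2 * u * ∑ k ∈ range K, (β k) ^ 2) := by ring
      _ ≤ K * Qf s y c := by gcongr
  calc 2 * u * (2 * u * (∑ k ∈ range K, β k) ^ 2) ≤ 2 * u * (K * Qf s y c) := by gcongr
    _ = _ := by ring

end Pool.Agent.H874LT
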