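import Pool.Agent.H874LT.Kernel

open Finset Filter Topology

namespace Pool.Agent.H874LT

/-- One Landen step for the Cauchy kernel form. -/
theorem Qf_landen (s : Finset ℕ) (y c : ℕ → ℝ) (g : ℝ) (hg : 0 < g) (hy : ∀ i ∈ s, 0 < y i) :
    Qf s y c = 1 / 2 * (Qf s (fun i => (y i + g ^ 2 / y i) / 2) c
      + Qf s (fun i => (y i + g ^ 2 / y i) / 2) (fun i => c i * (g / y i))) := by
  unfold Qf
  rw [← Finset.sum_add_distrib, Finset.mul_sum]
  refine Finset.sum_congr rfl fun i hi => ?_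
  rw [← Finset.sum_add_distrib, Finset.mul_sum]
  refine Finset.sum_congr rfl fun j hj => ?_
  have h1 := hy i hi
  have h2 := hy j hj
  have h3 : y i + y j ≠ 0 := by positivity
  have h4 : y i * y j + g ^ 2 ≠ 0 := by positivity
  have h5 : (y i + g ^ 2 / y i) / 2 + (y j + g ^ 2 / y j) / 2
      = (y i + y j) * (y i * y j + g ^ 2) / (2 * (y i * y j)) := by
    field_simp; ring
  rw [h5]
  field_simp

/-- Small Chebyshev functionals give small power functionals. -/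
theorem cos_pow_bound (s : Finset ℕ) (c v θ : ℕ → ℝ) (v0 ρ ε : ℝ) (hρ : 0 < ρ) (hv0 : 0 < v0)
    (hε : 0 ≤ ε) (hρv : v0 * (ρ + ρ⁻¹) = 2) (hv : ∀ i ∈ s, v i = v0 * Real.cos (θ i))
    (h0 : ∀ l : ℕ, |∑ i ∈ s, c i * Real.cos (l * θ i)| ≤ ε * ρ ^ l) :
    ∀ k : ℕ, ∀ l : ℤ, |∑ i ∈ s, c i * v i ^ k * Real.cos (l * θ i)|
      ≤ ε * (ρ ^ l + ρ ^ (-l)) := by
  intro k
  induction k with
  | zero =>
    intro l
    rcases Int.eq_nat_or_neg l with ⟨n, h | h⟩
    · subst h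
      simp only [pow_zero, mul_one, Int.cast_natCast]
      refine (h0 n).trans ?_
      have : ρ ^ (n : ℤ) = ρ ^ n := zpow_natCast ρ n
      rw [this]
      have h2 : 0 < ρ ^ (-(n : ℤ)) := zpow_pos hρ _
      apply mul_le_mul_of_nonneg_left _ hε
      linarith
    · subst h
      have e : ∀ i, Real.cos (((-(n : ℤ) : ℤ) : ℝ) * θ i) = Real.cos (n * θ i) := by
        intro i
        push_cast
        rw [neg_mul, Real.cos_neg]
      simp only [pow_zero, mul_one, e]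
      refine (h0 n).trans ?_
      have : ρ ^ (-(-(n : ℤ))) = ρ ^ n := by rw [neg_neg, zpow_natCast]
      rw [this]
      have h2 : 0 < ρ ^ (-(n : ℤ)) := zpow_pos hρ _
      apply mul_le_mul_of_nonneg_left _ hε
      linarith
  | succ k ih =>
    intro l
    have e : ∑ i ∈ s, c i * v i ^ (k + 1) * Real.cos (l * θ i)
        = v0 / 2 * (∑ i ∈ s, c i * v i ^ k * Real.cos (((l + 1 : ℤ) : ℝ) * θ i)
          + ∑ i ∈ s, c i * v i ^ k * Real.cos (((l - 1 : ℤ) : ℝ) * θ i)) := by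
      rw [← Finset.sum_add_distrib, Finset.mul_sum]
      refine Finset.sum_congr rfl fun i hi => ?_
      have e3 : ((l + 1 : ℤ) : ℝ) * θ i = l * θ i + θ i := by push_cast; ring
      have e4 : ((l - 1 : ℤ) : ℝ) * θ i = l * θ i - θ i := by push_cast; ring
      rw [e3, e4, Real.cos_add, Real.cos_sub, pow_succ, hv i hi]
      ring
    have h1 := ih (l + 1)
    have h2 := ih (l - 1)
    have h3 : ρ ^ (l + 1) = ρ ^ l * ρ := zpow_add_one₀ hρ.ne' l
    have h4 : ρ ^ (-(l + 1)) = ρ ^ (-l) * ρ⁻¹ := by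
      rw [neg_add, ← sub_eq_add_neg]
      exact zpow_sub_one₀ hρ.ne' (-l)
    have h5 : ρ ^ (l - 1) = ρ ^ l * ρ⁻¹ := zpow_sub_one₀ hρ.ne' l
    have h6 : ρ ^ (-(l - 1)) = ρ ^ (-l) * ρ := by
      have : -(l - 1) = -l + 1 := by ring
      rw [this]
      exact zpow_add_one₀ hρ.ne' (-l)
    rw [e, abs_mul, abs_of_pos (by positivity : 0 < v0 / 2)]
    rw [h3, h4] at h1
    rw [h5, h6] at h2
    calc v0 / 2 * |∑ i ∈ s, c i * v i ^ k * Real.cos (((l + 1 : ℤ) : ℝ) * θ i)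
          + ∑ i ∈ s, c i * v i ^ k * Real.cos (((l - 1 : ℤ) : ℝ) * θ i)|
        ≤ v0 / 2 * (ε * (ρ ^ l * ρ + ρ ^ (-l) * ρ⁻¹) + ε * (ρ ^ l * ρ⁻¹ + ρ ^ (-l) * ρ)) := by
          apply mul_le_mul_of_nonneg_left _ (by positivity)
          exact (abs_add_le _ _).trans (add_le_add h1 h2)
      _ = (v0 * (ρ + ρ⁻¹)) / 2 * (ε * (ρ ^ l + ρ ^ (-l))) := by ring
      _ = ε * (ρ ^ l + ρ ^ (-l)) := by rw [hρv]; ring

/-- The form is small when the Chebyshev functionals are small. -/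
theorem Qf_small (s : Finset ℕ) (y c : ℕ → ℝ) (u v0 ρ ε B : ℝ) (K : ℕ) (hu : 0 < u)
    (hy : ∀ i ∈ s, 1 ≤ y i) (hρ : 0 < ρ) (hv0 : 0 < v0) (hε : 0 ≤ ε)
    (hρv : v0 * (ρ + ρ⁻¹) = 2) (hv : ∀ i ∈ s, |(y i - u) / (y i + u)| ≤ v0)
    (hc : ∀ i ∈ s, |c i| ≤ B)
    (h0 : ∀ l : ℕ, |∑ i ∈ s, c i / (y i + u) *
      Real.cos (l * Real.arccos ((y i - u) / (y i + u) / v0))| ≤ ε * ρ ^ l) :
    Qf s y c ≤ 8 * u * K * ε ^ 2 + (s.card * (v0 ^ K * B)) ^ 2 := by
  have hy0 : ∀ i ∈ s, 0 < y i := fun i hi => lt_of_lt_of_le one_pos (hy i hi)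
  rw [Qf_iter s y c u hu hy0 K]
  set v : ℕ → ℝ := fun i => (y i - u) / (y i + u) with hvdef
  have hcos : ∀ i ∈ s, v i = v0 * Real.cos (Real.arccos ((y i - u) / (y i + u) / v0)) := by
    intro i hi
    have h := abs_le.mp (hv i hi)
    rw [Real.cos_arccos]
    · field_simp
      rfl
    · rw [le_div_iff₀ hv0]; linarith [h.1]
    · rw [div_le_iff₀ hv0]; linarith [h.2]
  have hb := cos_pow_bound s (fun i => c i / (y i + u)) v
    (fun i => Real.arccos ((y i - u) / (y i + u) / v0)) v0 ρ ε hρ hv0 hε hρv hcos h0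
  have h1 : ∀ k ∈ range K, 2 * u * (∑ i ∈ s, ((y i - u) / (y i + u)) ^ k * c i / (y i + u)) ^ 2
      ≤ 8 * u * ε ^ 2 := by
    intro k _
    have h2 := hb k 0
    simp only [Int.cast_zero, zero_mul, Real.cos_zero, mul_one, zpow_zero, neg_zero] at h2
    have h3 : ∑ i ∈ s, ((y i - u) / (y i + u)) ^ k * c i / (y i + u)
        = ∑ i ∈ s, c i / (y i + u) * v i ^ k := by
      refine Finset.sum_congr rfl fun i _ => ?_
      rw [hvdef]; ring
    rw [h3]
    have h4 : (∑ i ∈ s, c i / (y i + u) * v i ^ k) ^ 2 ≤ (ε * (1 + 1)) ^ 2 := by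
      rw [← sq_abs (∑ i ∈ s, c i / (y i + u) * v i ^ k)]
      gcongr
    calc 2 * u * (∑ i ∈ s, c i / (y i + u) * v i ^ k) ^ 2 ≤ 2 * u * (ε * (1 + 1)) ^ 2 := by
          gcongr
      _ = 8 * u * ε ^ 2 := by ring
  have h2 : ∑ k ∈ range K, 2 * u * (∑ i ∈ s, ((y i - u) / (y i + u)) ^ k * c i / (y i + u)) ^ 2
      ≤ 8 * u * K * ε ^ 2 := by
    calc _ ≤ ∑ k ∈ range K, 8 * u * ε ^ 2 := Finset.sum_le_sum h1
      _ = 8 * u * K * ε ^ 2 := by
        rw [Finset.sum_const, Finset.card_range, nsmul_eq_mul]; ring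
  have h3 : Qf s y (fun i => ((y i - u) / (y i + u)) ^ K * c i)
      ≤ (s.card * (v0 ^ K * B)) ^ 2 := by
    unfold Qf
    have h5 : ∀ i ∈ s, |((y i - u) / (y i + u)) ^ K * c i| ≤ v0 ^ K * B := by
      intro i hi
      rw [abs_mul, abs_pow]
      have h6 := hv i hi
      have h7 := hc i hi
      gcongr
    calc ∑ i ∈ s, ∑ j ∈ s, ((y i - u) / (y i + u)) ^ K * c i * (((y j - u) / (y j + u)) ^ K * c j)
          / (y i + y j)
        ≤ ∑ i ∈ s, ∑ j ∈ s, (v0 ^ K * B) * (v0 ^ K * B) := by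
          refine Finset.sum_le_sum fun i hi => Finset.sum_le_sum fun j hj => ?_
          have h8 := h5 i hi
          have h9 := h5 j hj
          have h10 := hy i hi
          have h11 := hy j hj
          have hB : 0 ≤ v0 ^ K * B := (abs_nonneg _).trans h8
          have h12 : |((y i - u) / (y i + u)) ^ K * c i * (((y j - u) / (y j + u)) ^ K * c j)|
              ≤ (v0 ^ K * B) * (v0 ^ K * B) := by
            rw [abs_mul]
            exact mul_le_mul h8 h9 (abs_nonneg _) hB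
          rw [div_le_iff₀ (by linarith)]
          calc _ ≤ |((y i - u) / (y i + u)) ^ K * c i * (((y j - u) / (y j + u)) ^ K * c j)| :=
                le_abs_self _
            _ ≤ (v0 ^ K * B) * (v0 ^ K * B) := h12
            _ ≤ (v0 ^ K * B) * (v0 ^ K * B) * (y i + y j) :=
                le_mul_of_one_le_right (by positivity) (by linarith)
      _ = (s.card * (v0 ^ K * B)) ^ 2 := by
          simp only [Finset.sum_const, nsmul_eq_mul]; ring
  linarith

end Pool.Agent.H874LT
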