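import Pool.Agent.H874LT.Asym
import Pool.Agent.H874LT.Defs

open Finset Filter Topology Polynomial

namespace Pool.Agent.H874LT

theorem abs_coeff_le {n : ℕ} {p : ℤ[X]} (h : InF n p) (i : ℕ) : |((p.coeff i : ℤ) : ℝ)| ≤ 1 := by
  rcases h.2 i with h | h | h <;> rw [h] <;> simp

theorem lower_poly (n : ℕ) (p : ℤ[X]) (hp : p ≠ 0) (hF : InF n p) (hn : 101 ≤ n) :
    8 / (3 * Real.pi ^ 3) ≤ supNorm p * (((n : ℝ) + 30) ^ 3 *
      Real.exp (Real.pi / 2 * (1.56085 * Real.sqrt ((n : ℝ) + 30) + 3))) := by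
  obtain ⟨hdeg, hco⟩ := hF
  have hn' : (101:ℝ) ≤ n := by exact_mod_cast hn
  set m := p.natTrailingDegree with hm
  have hmn : m ≤ n := (Polynomial.natTrailingDegree_le_natDegree p).trans hdeg
  have htc : p.coeff m ≠ 0 := by
    rw [hm]
    exact Polynomial.trailingCoeff_nonzero_iff_nonzero.mpr hp
  set a : ℕ → ℝ := fun i => ((p.coeff (m + i) : ℤ) : ℝ) with ha
  have ha0 : |a 0| = 1 := by
    simp only [ha, add_zero]
    rcases hco m with h | h | h
    · rw [h]; simp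
    · exact absurd h htc
    · rw [h]; simp
  have ha1 : ∀ i ≤ n - m, |a i| ≤ 1 := by
    intro i _
    simp only [ha]
    rcases hco (m + i) with h | h | h <;> rw [h] <;> simp
  have heval : ∀ x : ℝ, aeval x p = ∑ i ∈ range (n - m + 1), a i * x ^ (m + i) := by
    intro x
    rw [Polynomial.aeval_eq_sum_range' (show p.natDegree < m + (n - m + 1) by omega)]
    rw [Finset.sum_range_add]
    have : ∑ i ∈ range m, p.coeff i • x ^ i = 0 := by
      apply Finset.sum_eq_zero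
      intro i hi
      rw [Polynomial.coeff_eq_zero_of_lt_natTrailingDegree (Finset.mem_range.mp hi), zero_smul]
    rw [this, zero_add]
    refine Finset.sum_congr rfl fun i _ => ?_
    simp [ha]
  have hM : ∀ x ∈ Set.Icc (0:ℝ) 1, |∑ i ∈ range (n - m + 1), a i * x ^ (m + i)| ≤ supNorm p := by
    intro x hx
    rw [← heval]
    exact le_supNorm p x hx
  rcases Nat.eq_zero_or_pos m with h0 | h0
  · -- `|p 0| = 1`
    have h1 : 1 ≤ supNorm p := by
      have := hM 0 ⟨le_rfl, zero_le_one⟩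
      rw [h0] at this
      rw [Finset.sum_eq_single 0] at this
      · simpa [ha0] using this
      · intro i _ hi
        simp [hi]
      · simp
    have h2 : 8 / (3 * Real.pi ^ 3) ≤ 1 := by
      rw [div_le_one (by positivity)]
      have := Real.pi_gt_three
      have : (3:ℝ) ^ 3 ≤ Real.pi ^ 3 := by gcongr
      linarith
    have h3 : 1 ≤ ((n : ℝ) + 30) ^ 3 := one_le_pow₀ (by linarith)
    have h4 : 1 ≤ Real.exp (Real.pi / 2 * (1.56085 * Real.sqrt ((n : ℝ) + 30) + 3)) :=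
      Real.one_le_exp (by positivity)
    calc 8 / (3 * Real.pi ^ 3) ≤ 1 * (1 * 1) := by linarith
      _ ≤ _ := by gcongr
  · apply lower_one m (n - m) a (supNorm p) ((n : ℝ) + 30) h0 hM ha0 ha1
    · have : (m : ℝ) + ((n - m : ℕ) : ℝ) = n := by
        rw [Nat.cast_sub hmn]; ring
      linarith
    · linarith

theorem lower_event : ∀ᶠ n : ℕ in atTop, ∀ p : ℤ[X], p ≠ 0 → InF n p →
    Real.exp (-(2.4518 * Real.sqrt n)) ≤ supNorm p := by
  have hb : (0:ℝ) < 2.4518 - 1.5708 * 1.56085 := by norm_num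
  set b : ℝ := 2.4518 - 1.5708 * 1.56085 with hbdef
  set K : ℝ := 3 * Real.pi ^ 3 / 8 * (31 ^ 3 * Real.exp (1.5708 * (1.56085 * 6 + 3))) with hK
  filter_upwards [event b K hb 3, eventually_ge_atTop 101] with n hev hn p hp hF
  have h1 := lower_poly n p hp hF hn
  have hn' : (101:ℝ) ≤ n := by exact_mod_cast hn
  have hM0 := supNorm_nonneg p
  have hπ := Real.pi_pos
  have hπ2 : Real.pi / 2 ≤ 1.5708 := by
    have := Real.pi_lt_d4; linarith
  have hsn : Real.sqrt ((n : ℝ) + 30) ≤ Real.sqrt n + 6 := by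
    rw [Real.sqrt_le_left (by positivity)]
    have := Real.sq_sqrt (show (0:ℝ) ≤ n by linarith)
    nlinarith [Real.sqrt_nonneg (n : ℝ)]
  have hY : ((n : ℝ) + 30) ^ 3 ≤ 31 ^ 3 * (n : ℝ) ^ 3 := by
    rw [← mul_pow]; gcongr; linarith
  have hE : Real.exp (Real.pi / 2 * (1.56085 * Real.sqrt ((n : ℝ) + 30) + 3))
      ≤ Real.exp (1.5708 * (1.56085 * 6 + 3)) * Real.exp (1.5708 * 1.56085 * Real.sqrt n) := by
    rw [← Real.exp_add]
    apply Real.exp_le_exp.mpr
    calc Real.pi / 2 * (1.56085 * Real.sqrt ((n : ℝ) + 30) + 3)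
        ≤ 1.5708 * (1.56085 * (Real.sqrt n + 6) + 3) := by gcongr
      _ = _ := by ring
  set E1 := Real.exp (1.5708 * (1.56085 * 6 + 3)) with hE1
  have hsplit : Real.exp (-(b * Real.sqrt n))
      = Real.exp (1.5708 * 1.56085 * Real.sqrt n) * Real.exp (-(2.4518 * Real.sqrt n)) := by
    rw [← Real.exp_add]; congr 1; rw [hbdef]; ring
  set G := Real.exp (1.5708 * 1.56085 * Real.sqrt n) with hG
  set H := Real.exp (-(2.4518 * Real.sqrt n)) with hH
  have h2 : 8 / (3 * Real.pi ^ 3) ≤ supNorm p * (31 ^ 3 * (n : ℝ) ^ 3 * (E1 * G)) := by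
    refine h1.trans ?_
    gcongr
  rw [hsplit, hK] at hev
  have hP : 0 < 31 ^ 3 * (n : ℝ) ^ 3 * (E1 * G) := by positivity
  have h3 : H * (31 ^ 3 * (n : ℝ) ^ 3 * (E1 * G)) ≤ 8 / (3 * Real.pi ^ 3) := by
    rw [le_div_iff₀ (by positivity)]
    calc H * (31 ^ 3 * (n : ℝ) ^ 3 * (E1 * G)) * (3 * Real.pi ^ 3)
        = 8 * (3 * Real.pi ^ 3 / 8 * (31 ^ 3 * E1) * (n : ℝ) ^ 3 * (G * H)) := by ring
      _ ≤ 8 * 1 := by gcongr
      _ = 8 := by ring
  exact le_of_mul_le_mul_right (h3.trans h2) hP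

end Pool.Agent.H874LT
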