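import Pool.Agent.H874LT.Box
import Pool.Agent.H874LT.Landen
import Pool.Agent.H874LT.Cheb
import Pool.Agent.H874LT.Defs

open Finset Filter Topology Polynomial MeasureTheory

namespace Pool.Agent.H874LT

theorem prod_bound (L : ℕ) (R ε ρ : ℝ) (hR : 0 < R) (hε : 0 < ε) (hρ : 1 < ρ) :
    ∏ q : Bool × Fin L, (4 * R / (ε * ρ ^ (q.2 : ℕ)))
      ≤ Real.exp ((Real.log (4 * R / ε) + Real.log ρ / 2) ^ 2 / Real.log ρ) := by
  have hρ0 : 0 < ρ := by linarith
  have hlr : 0 < Real.log ρ := Real.log_pos hρ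
  set Λ := Real.log (4 * R / ε) with hΛ
  set r := Real.log ρ with hr
  have hfac : ∀ l : ℕ, 4 * R / (ε * ρ ^ l) = Real.exp (Λ - l * r) := by
    intro l
    rw [Real.exp_sub, hΛ, Real.exp_log (by positivity), Real.exp_nat_mul, hr, Real.exp_log hρ0]
    field_simp
  have h1 : ∏ q : Bool × Fin L, (4 * R / (ε * ρ ^ (q.2 : ℕ)))
      = Real.exp (2 * (L * Λ) - L * (L - 1) * r) := by
    rw [Fintype.prod_prod_type]
    simp only [Fintype.prod_bool]
    have h2 : ∏ l : Fin L, (4 * R / (ε * ρ ^ (l : ℕ))) = Real.exp (L * Λ - L * (L - 1) / 2 * r) := by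
      rw [Fin.prod_univ_eq_prod_range (fun l => 4 * R / (ε * ρ ^ l)) L]
      rw [Finset.prod_congr rfl fun l _ => hfac l, ← Real.exp_sum]
      congr 1
      rw [Finset.sum_sub_distrib, Finset.sum_const, Finset.card_range, nsmul_eq_mul,
        ← Finset.sum_mul]
      congr 2
      induction L with
      | zero => simp
      | succ L ih => rw [Finset.sum_range_succ, ih]; push_cast; ring
    rw [h2, ← Real.exp_add]
    congr 1; ring
  rw [h1]
  apply Real.exp_le_exp.mpr
  rw [le_div_iff₀ hlr]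
  nlinarith [sq_nonneg (Λ + r / 2 - L * r)]

theorem abs_le_of_int_sq (s : Finset ℕ) (a : ℕ → ℤ) (D : ℝ) (hD : 0 < D)
    (hQ : Qf s (fun i => (((0 : ℕ) : ℕ) : ℝ) + i + 1 / 2) (fun i => ((i : ℝ) + 1) * a i) ≤ D ^ 2)
    (x : ℝ) (hx : x ∈ Set.Icc (0:ℝ) 1) :
    |∑ i ∈ s, (a i : ℝ) * x ^ (i + 1)| ≤ D := by
  rw [Qf_eq_integral] at hQ
  set q : ℝ → ℝ := fun t => ∑ i ∈ s, ((i : ℝ) + 1) * a i * t ^ (0 + i) with hq
  have hqc : Continuous q := by rw [hq]; fun_prop
  have h1 : ∫ t in (0:ℝ)..x, q t = ∑ i ∈ s, (a i : ℝ) * x ^ (i + 1) := by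
    rw [hq, intervalIntegral.integral_finsetSum]
    · refine Finset.sum_congr rfl fun i _ => ?_
      rw [intervalIntegral.integral_const_mul, integral_pow]
      have : ((i : ℝ) + 1) ≠ 0 := by positivity
      simp only [zero_add]
      rw [zero_pow (by omega), sub_zero]
      field_simp
    · intro i _
      exact Continuous.intervalIntegrable (by fun_prop) _ _
  rw [← h1]
  have h2 : |∫ t in (0:ℝ)..x, q t| ≤ ∫ t in (0:ℝ)..x, |q t| :=
    intervalIntegral.abs_integral_le_integral_abs hx.1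
  have h3 : ∫ t in (0:ℝ)..x, |q t| ≤ ∫ t in (0:ℝ)..1, |q t| := by
    apply intervalIntegral.integral_mono_interval le_rfl hx.1 hx.2
    · exact Eventually.of_forall fun t => abs_nonneg _
    · exact Continuous.intervalIntegrable hqc.abs _ _
  have h4 : ∫ t in (0:ℝ)..1, |q t| ≤ ∫ t in (0:ℝ)..1, ((1 / (2 * D)) * (q t) ^ 2 + D / 2) := by
    apply intervalIntegral.integral_mono_on zero_le_one
    · exact Continuous.intervalIntegrable hqc.abs _ _
    · exact Continuous.intervalIntegrable (by fun_prop) _ _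
    · intro t _
      have h5 : 0 ≤ (|q t| - D) ^ 2 := sq_nonneg _
      have h6 : |q t| ^ 2 = (q t) ^ 2 := sq_abs _
      have h7 : (1 / (2 * D)) * (q t) ^ 2 + D / 2 = ((q t) ^ 2 + D ^ 2) / (2 * D) := by
        field_simp
      rw [h7, le_div_iff₀ (by positivity)]
      nlinarith
  have h5 : ∫ t in (0:ℝ)..1, ((1 / (2 * D)) * (q t) ^ 2 + D / 2)
      = (1 / (2 * D)) * (∫ t in (0:ℝ)..1, (q t) ^ 2) + D / 2 := by
    rw [intervalIntegral.integral_add, intervalIntegral.integral_const_mul]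
    · simp
    · exact Continuous.intervalIntegrable (by fun_prop) _ _
    · exact intervalIntegrable_const
  have h6 : (1 / (2 * D)) * (∫ t in (0:ℝ)..1, (q t) ^ 2) ≤ D / 2 := by
    calc (1 / (2 * D)) * (∫ t in (0:ℝ)..1, (q t) ^ 2) ≤ (1 / (2 * D)) * D ^ 2 := by
          gcongr
      _ = D / 2 := by field_simp
  linarith

end Pool.Agent.H874LT
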