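import Pool.Agent.H874LT.Upper

open Finset Filter Topology Polynomial MeasureTheory

namespace Pool.Agent.H874LT

/-- Bounds for the Landen transformed nodes. -/
theorem node_bounds (n y : ℝ) (hn : 0 < n) (h1 : 64 / 225 * n ≤ y) (h2 : y ≤ n) :
    8 / 15 * n ≤ (y + (8 / 15 * n) ^ 2 / y) / 2 ∧
      (y + (8 / 15 * n) ^ 2 / y) / 2 ≤ 289 / 450 * n := by
  have hy : 0 < y := by nlinarith
  constructor
  · rw [le_div_iff₀ two_pos, ← sub_nonneg]
    have : y + (8 / 15 * n) ^ 2 / y - 8 / 15 * n * 2 = (y - 8 / 15 * n) ^ 2 / y := by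
      field_simp; ring
    rw [this]; positivity
  · rw [div_le_iff₀ two_pos, ← sub_nonneg]
    have : 289 / 450 * n * 2 - (y + (8 / 15 * n) ^ 2 / y)
        = (n - y) * (y - 64 / 225 * n) / y := by
      field_simp; ring
    rw [this]
    have h3 : 0 ≤ n - y := by linarith
    have h4 : 0 ≤ y - 64 / 225 * n := by linarith
    positivity

theorem cayley_bounds (n z : ℝ) (hn : 0 < n) (h1 : 8 / 15 * n ≤ z) (h2 : z ≤ 289 / 450 * n) :
    |(z - 79 / 135 * n) / (z + 79 / 135 * n)| ≤ 43 / 925 := by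
  have h3 : 0 < z + 79 / 135 * n := by nlinarith
  rw [abs_le]
  constructor
  · rw [le_div_iff₀ h3]; linarith
  · rw [div_le_iff₀ h3]; linarith

theorem upper_exists (n m : ℕ) (ε D : ℝ) (hn : 2 ≤ n) (hm1 : (64 / 225 : ℝ) * n ≤ m) (hmn : m < n)
    (hε : 0 < ε) (hεn : ε ≤ n) (hD : 0 < D)
    (hcount : (Real.log (4 * n / ε) + Real.log 43 / 2) ^ 2 / Real.log 43
      < ((n : ℝ) - m) * Real.log 2)
    (hDb : 5 * (n : ℝ) ^ 2 * ε ^ 2 + 4 * (n : ℝ) ^ 4 * (43 / 925) ^ (2 * n) ≤ D ^ 2) :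
    ∃ p : ℤ[X], p ≠ 0 ∧ InF n p ∧ supNorm p ≤ D := by
  classical
  have hn' : (2:ℝ) ≤ n := by exact_mod_cast hn
  have hn0 : (0:ℝ) < n := by linarith
  -- the number of functionals
  have hex : ∃ l : ℕ, (n : ℝ) ≤ ε * 43 ^ l := by
    obtain ⟨l, hl⟩ := pow_unbounded_of_one_lt ((n : ℝ) / ε) (show (1:ℝ) < 43 by norm_num)
    refine ⟨l, ?_⟩
    rw [div_lt_iff₀ hε] at hl
    linarith
  set L := Nat.find hex with hL
  have hLspec : (n : ℝ) ≤ ε * 43 ^ L := Nat.find_spec hex
  have hLmin : ∀ l < L, ε * 43 ^ l ≤ n := fun l hl => (not_le.mp (Nat.find_min hex hl)).le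
  set s : Finset ℕ := Finset.Ico m n with hs
  set y : ℕ → ℝ := fun i => (((0 : ℕ) : ℕ) : ℝ) + i + 1 / 2 with hy
  set g : ℝ := 8 / 15 * n with hg
  set u : ℝ := 79 / 135 * n with hu
  set y' : ℕ → ℝ := fun i => (y i + g ^ 2 / y i) / 2 with hy'
  have hy0 : ∀ i, 0 < y i := fun i => by simp only [hy]; positivity
  have hg0 : 0 < g := by rw [hg]; positivity
  have hu0 : 0 < u := by rw [hu]; positivity
  have hmem : ∀ i ∈ s, (m : ℝ) ≤ i ∧ (i : ℝ) + 1 ≤ n := by
    intro i hi
    rw [hs, Finset.mem_Ico] at hi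
    exact ⟨by exact_mod_cast hi.1, by exact_mod_cast hi.2⟩
  have hnode : ∀ i ∈ s, 8 / 15 * (n : ℝ) ≤ y' i ∧ y' i ≤ 289 / 450 * n := by
    intro i hi
    obtain ⟨h1, h2⟩ := hmem i hi
    apply node_bounds n (y i) hn0
    · simp only [hy]; push_cast; linarith
    · simp only [hy]; push_cast; linarith
  have hy'1 : ∀ i ∈ s, 1 ≤ y' i := by
    intro i hi
    have := (hnode i hi).1
    linarith
  have hv : ∀ i ∈ s, |(y' i - u) / (y' i + u)| ≤ 43 / 925 := fun i hi =>
    cayley_bounds n (y' i) hn0 (hnode i hi).1 (hnode i hi).2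
  -- the weights
  set W : Bool → ℕ → ℝ := fun b i => (if b then ((i : ℝ) + 1) * (g / y i) else ((i : ℝ) + 1))
    / (y' i + u) with hW
  set θ : ℕ → ℝ := fun i => Real.arccos ((y' i - u) / (y' i + u) / (43 / 925)) with hθ
  have hW1 : ∀ b, ∀ i ∈ s, |W b i| ≤ 1 := by
    intro b i hi
    have h3 := (hnode i hi).1
    obtain ⟨h1, h2⟩ := hmem i hi
    have hpos : 0 < y' i + u := by have := hy'1 i hi; linarith
    have hyi := hy0 i
    have hgy : ((i : ℝ) + 1) * (g / y i) ≤ 2 * g := by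
      rw [← mul_div_assoc, div_le_iff₀ hyi]
      have : (i : ℝ) + 1 ≤ 2 * y i := by
        simp only [hy]; push_cast
        have : (0:ℝ) ≤ i := by positivity
        linarith
      nlinarith
    simp only [hW]
    cases b
    · simp only [Bool.false_eq_true, if_false]
      rw [abs_div, abs_of_pos hpos, div_le_one hpos, abs_of_nonneg (by positivity)]
      rw [hu]; linarith
    · simp only [if_true]
      rw [abs_div, abs_of_pos hpos, div_le_one hpos, abs_of_nonneg (by positivity)]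
      rw [hg] at hgy
      rw [hu]; linarith
  set f : Bool × Fin L → ℕ → ℝ := fun q i => W q.1 i * Real.cos ((q.2 : ℕ) * θ i) with hf
  have hcards : s.card = n - m := by rw [hs, Nat.card_Ico]
  have hcardn : (s.card : ℝ) ≤ n := by
    rw [hcards]; exact_mod_cast Nat.sub_le n m
  have hWcos : ∀ (c : ℕ → ℝ) (b : Bool) (l : ℕ), (∀ i ∈ s, |c i| ≤ 1) →
      |∑ i ∈ s, c i * (W b i * Real.cos (l * θ i))| ≤ n := by
    intro c b l hc
    calc |∑ i ∈ s, c i * (W b i * Real.cos (l * θ i))|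
        ≤ ∑ i ∈ s, |c i * (W b i * Real.cos (l * θ i))| := Finset.abs_sum_le_sum_abs _ _
      _ ≤ ∑ i ∈ s, (1:ℝ) := by
          refine Finset.sum_le_sum fun i hi => ?_
          rw [abs_mul, abs_mul]
          have h1 := hW1 b i hi
          have h2 := Real.abs_cos_le_one (l * θ i)
          have h3 := hc i hi
          calc |c i| * (|W b i| * |Real.cos (l * θ i)|) ≤ 1 * (1 * 1) := by gcongr
            _ = 1 := by norm_num
      _ = s.card := by simp
      _ ≤ n := hcardn
  have hfsum : ∀ q, ∑ j ∈ s, |f q j| ≤ (n : ℝ) := by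
    intro q
    calc ∑ j ∈ s, |f q j| ≤ ∑ j ∈ s, (1:ℝ) := by
          refine Finset.sum_le_sum fun i hi => ?_
          simp only [hf]
          rw [abs_mul]
          have h1 := hW1 q.1 i hi
          have h2 := Real.abs_cos_le_one ((q.2 : ℕ) * θ i)
          calc |W q.1 i| * |Real.cos ((q.2 : ℕ) * θ i)| ≤ 1 * 1 := by gcongr
            _ = 1 := by norm_num
      _ = s.card := by simp
      _ ≤ n := hcardn
  have hcard : ∏ q : Bool × Fin L, (4 * (n : ℝ) / (ε * 43 ^ (q.2 : ℕ))) < 2 ^ s.card := by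
    refine lt_of_le_of_lt (prod_bound L n ε 43 hn0 hε (by norm_num)) ?_
    have h1 : (2:ℝ) ^ s.card = Real.exp (((n : ℝ) - m) * Real.log 2) := by
      rw [hcards, ← Nat.cast_sub hmn.le, Real.exp_nat_mul, Real.exp_log two_pos]
    rw [h1]
    exact Real.exp_lt_exp.mpr hcount
  obtain ⟨a, ha1, ⟨i0, hi0, hai0⟩, ha0, hab⟩ := box s f (fun q => ε * 43 ^ (q.2 : ℕ)) n
    (fun q => by positivity) (fun q => hLmin q.2 q.2.2) hfsum hcard
  have haabs : ∀ i, |(a i : ℝ)| ≤ 1 := by
    intro i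
    rcases ha1 i with h | h | h <;> rw [h] <;> simp
  have hall : ∀ (b : Bool) (l : ℕ), |∑ i ∈ s, (a i : ℝ) * (W b i * Real.cos (l * θ i))|
      ≤ ε * 43 ^ l := by
    intro b l
    rcases lt_or_ge l L with h | h
    · exact hab (b, ⟨l, h⟩)
    · refine (hWcos (fun i => (a i : ℝ)) b l (fun i _ => haabs i)).trans (hLspec.trans ?_)
      have : (43:ℝ) ^ L ≤ 43 ^ l := pow_le_pow_right₀ (by norm_num) h
      gcongr
  -- the two forms
  have hρv : (43 / 925 : ℝ) * (43 + 43⁻¹) = 2 := by norm_num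
  have hQ : ∀ b : Bool, Qf s y' (fun i => (if b then ((i : ℝ) + 1) * a i * (g / y i)
      else ((i : ℝ) + 1) * a i)) ≤ 8 * u * n * ε ^ 2 + (s.card * ((43 / 925) ^ n * (2 * n))) ^ 2 := by
    intro b
    apply Qf_small s y' _ u (43 / 925) 43 ε (2 * n) n hu0 hy'1 (by norm_num) (by norm_num) hε.le
      hρv hv
    · intro i hi
      obtain ⟨h1, h2⟩ := hmem i hi
      have hyi := hy0 i
      have hi0 : (0:ℝ) ≤ i := by positivity
      cases b
      · simp only [Bool.false_eq_true, if_false]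
        rw [abs_mul, abs_of_nonneg (by positivity : (0:ℝ) ≤ (i : ℝ) + 1)]
        calc ((i : ℝ) + 1) * |(a i : ℝ)| ≤ n * 1 := by
              have := haabs i
              gcongr
          _ ≤ 2 * n := by linarith
      · simp only [if_true]
        rw [abs_mul, abs_mul, abs_of_nonneg (by positivity : (0:ℝ) ≤ (i : ℝ) + 1),
          abs_of_nonneg (by positivity : (0:ℝ) ≤ g / y i)]
        have hgy : ((i : ℝ) + 1) * (g / y i) ≤ 2 * g := by
          rw [← mul_div_assoc, div_le_iff₀ hyi]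
          have : (i : ℝ) + 1 ≤ 2 * y i := by
            simp only [hy]; push_cast; linarith
          nlinarith
        calc ((i : ℝ) + 1) * |(a i : ℝ)| * (g / y i) = ((i : ℝ) + 1) * (g / y i) * |(a i : ℝ)| := by
              ring
          _ ≤ 2 * g * 1 := by
              have := haabs i
              gcongr
          _ ≤ 2 * n := by rw [hg]; linarith
    · intro l
      have h1 := hall b l
      have e : ∑ i ∈ s, (if b then ((i : ℝ) + 1) * a i * (g / y i)
            else ((i : ℝ) + 1) * a i) / (y' i + u) *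
            Real.cos (l * Real.arccos ((y' i - u) / (y' i + u) / (43 / 925)))
          = ∑ i ∈ s, (a i : ℝ) * (W b i * Real.cos (l * θ i)) := by
        refine Finset.sum_congr rfl fun i _ => ?_
        simp only [hW, hθ]
        cases b
        · simp only [Bool.false_eq_true, if_false]; ring
        · simp only [if_true]; ring
      rw [e]; exact h1
  have hQf := hQ false
  have hQt := hQ true
  simp only [Bool.false_eq_true, if_false] at hQf
  simp only [if_true] at hQt
  have hQtot : Qf s y (fun i => ((i : ℝ) + 1) * a i) ≤ D ^ 2 := by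
    rw [Qf_landen s y _ g hg0 (fun i _ => hy0 i)]
    have h3 : 8 * u * n * ε ^ 2 + (s.card * ((43 / 925) ^ n * (2 * n))) ^ 2 ≤ D ^ 2 := by
      refine le_trans ?_ hDb
      have h4 : 8 * u * n * ε ^ 2 ≤ 5 * (n : ℝ) ^ 2 * ε ^ 2 := by
        rw [hu]
        have : 0 ≤ (n : ℝ) ^ 2 * ε ^ 2 := by positivity
        nlinarith
      have h5 : (s.card * ((43 / 925) ^ n * (2 * n))) ^ 2
          ≤ 4 * (n : ℝ) ^ 4 * (43 / 925) ^ (2 * n) := by
        calc (s.card * ((43 / 925) ^ n * (2 * n))) ^ 2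
            ≤ ((n : ℝ) * ((43 / 925) ^ n * (2 * n))) ^ 2 := by gcongr
          _ = 4 * (n : ℝ) ^ 4 * (43 / 925) ^ (2 * n) := by ring
      linarith
    linarith
  -- the polynomial
  set p : ℤ[X] := ∑ i ∈ s, Polynomial.C (a i) * Polynomial.X ^ (i + 1) with hp
  have hcoeff0 : p.coeff 0 = 0 := by
    rw [hp, Polynomial.finsetSum_coeff]
    apply Finset.sum_eq_zero
    intro i _
    rw [Polynomial.coeff_C_mul_X_pow]
    simp
  have hcoeff : ∀ k, p.coeff (k + 1) = a k := by
    intro k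
    rw [hp, Polynomial.finsetSum_coeff]
    simp only [Polynomial.coeff_C_mul_X_pow, Nat.add_right_cancel_iff]
    rw [Finset.sum_ite_eq s k a]
    split_ifs with h
    · rfl
    · exact (ha0 k h).symm
  refine ⟨p, ?_, ⟨?_, ?_⟩, ?_⟩
  · intro h
    apply hai0
    rw [← hcoeff i0, h, Polynomial.coeff_zero]
  · apply Polynomial.natDegree_sum_le_of_forall_le
    intro i hi
    have : i + 1 ≤ n := by
      rw [hs, Finset.mem_Ico] at hi; omega
    exact (Polynomial.natDegree_C_mul_X_pow_le _ _).trans this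
  · intro k
    rcases k with _ | k
    · right; left; exact hcoeff0
    · rw [hcoeff]; exact ha1 k
  · apply supNorm_le
    intro x hx
    have e : aeval x p = ∑ i ∈ s, (a i : ℝ) * x ^ (i + 1) := by
      rw [hp, map_sum]
      refine Finset.sum_congr rfl fun i _ => ?_
      simp
    rw [e]
    exact abs_le_of_int_sq s a D hD hQtot x hx

end Pool.Agent.H874LT
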