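import Pool.Agent.H874LT.Upper2

open Finset Filter Topology Polynomial

namespace Pool.Agent.H874LT

theorem log43_gt : 3.7611 ≤ Real.log 43 := by
  have h1 : Real.log 43 = 5 * Real.log 2 + Real.log (43 / 32) := by
    have : (43:ℝ) = 2 ^ 5 * (43 / 32) := by norm_num
    rw [this, Real.log_mul (by norm_num) (by norm_num), Real.log_pow]
    norm_num
  have h2 := Real.log_two_gt_d9
  have h3 : 0.2954 ≤ Real.log (43 / 32) := by
    rw [Real.le_log_iff_exp_le (by norm_num)]
    refine (Real.exp_bound' (by norm_num) (by norm_num) (show 0 < 6 by norm_num)).trans ?_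
    simp only [Finset.sum_range_succ, Finset.sum_range_zero, Nat.factorial]
    norm_num
  rw [h1]; linarith

theorem log43_lt : Real.log 43 ≤ 4 := by
  rw [Real.log_le_iff_le_exp (by norm_num)]
  have h := Real.exp_one_gt_d9
  have h2 : Real.exp 4 = Real.exp 1 ^ 4 := by rw [← Real.exp_nat_mul]; norm_num
  rw [h2]
  calc (43:ℝ) ≤ 2.7 ^ 4 := by norm_num
    _ ≤ Real.exp 1 ^ 4 := by gcongr; linarith

theorem upper_event : ∀ᶠ n : ℕ in atTop, mu n ≤ Real.exp (-(1.3658 * Real.sqrt n)) := by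
  filter_upwards [event 0.000001 (4 * Real.exp 2) (by norm_num) 1,
    event 0.00002 10 (by norm_num) 2, event 2.2684 8 (by norm_num) 4,
    eventually_ge_atTop 1000000] with n h1 h2 h3 hn
  have hn' : (1000000:ℝ) ≤ n := by exact_mod_cast hn
  have hn0 : (0:ℝ) < n := by linarith
  set S := Real.sqrt (n : ℝ) with hS
  have hS2 : S ^ 2 = n := Real.sq_sqrt hn0.le
  have hS0 : 0 ≤ S := Real.sqrt_nonneg _
  have hS1 : 1 ≤ S := by
    rw [hS, Real.one_le_sqrt]; linarith
  have hSn : S ≤ n := by nlinarith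
  set ε := Real.exp (-(1.36581 * S)) with hε
  set D := Real.exp (-(1.3658 * S)) with hD
  set m := ⌈(64 / 225 : ℝ) * n⌉₊ with hm
  have hm1 : (64 / 225 : ℝ) * n ≤ m := Nat.le_ceil _
  have hm2 : (m : ℝ) < (64 / 225 : ℝ) * n + 1 := Nat.ceil_lt_add_one (by positivity)
  have hmn : m < n := by
    have : (m : ℝ) < n := by linarith
    exact_mod_cast this
  have hε0 : 0 < ε := Real.exp_pos _
  have hε1 : ε ≤ 1 := Real.exp_le_one_iff.mpr (by nlinarith)
  have hlog : Real.log (4 * n) + 2 ≤ 0.000001 * S := by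
    have h4 : 4 * (n : ℝ) * Real.exp 2 ≤ Real.exp (0.000001 * S) := by
      have h5 : Real.exp (0.000001 * S) * Real.exp (-(0.000001 * S)) = 1 := by
        rw [← Real.exp_add]; simp
      have h6 : 0 < Real.exp (-(0.000001 * S)) := Real.exp_pos _
      have h7 : 4 * (n : ℝ) * Real.exp 2 * Real.exp (-(0.000001 * S))
          ≤ Real.exp (0.000001 * S) * Real.exp (-(0.000001 * S)) := by
        rw [h5]
        calc 4 * (n : ℝ) * Real.exp 2 * Real.exp (-(0.000001 * S))
            = 4 * Real.exp 2 * (n : ℝ) ^ 1 * Real.exp (-(0.000001 * S)) := by ring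
          _ ≤ 1 := h1
      exact le_of_mul_le_mul_right h7 h6
    have h8 := Real.log_le_log (by positivity) h4
    rw [Real.log_exp, Real.log_mul (by positivity) (by positivity), Real.log_exp] at h8
    exact h8
  have hL43 := log43_gt
  have hL43' := log43_lt
  have hL2 := Real.log_two_gt_d9
  have hcount : (Real.log (4 * n / ε) + Real.log 43 / 2) ^ 2 / Real.log 43
      < ((n : ℝ) - m) * Real.log 2 := by
    have e1 : Real.log (4 * n / ε) = Real.log (4 * n) + 1.36581 * S := by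
      rw [Real.log_div (by positivity) hε0.ne', hε, Real.log_exp]; ring
    have h4 : 0 ≤ Real.log (4 * n / ε) + Real.log 43 / 2 := by
      rw [e1]
      have : 0 ≤ Real.log (4 * (n : ℝ)) := Real.log_nonneg (by linarith)
      positivity
    have h5 : Real.log (4 * n / ε) + Real.log 43 / 2 ≤ 1.365811 * S := by
      rw [e1]; linarith
    have h6 : (Real.log (4 * n / ε) + Real.log 43 / 2) ^ 2 ≤ 1.365811 ^ 2 * n := by
      calc (Real.log (4 * n / ε) + Real.log 43 / 2) ^ 2 ≤ (1.365811 * S) ^ 2 :=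
            pow_le_pow_left₀ h4 h5 2
        _ = 1.365811 ^ 2 * n := by rw [mul_pow, hS2]
    rw [div_lt_iff₀ (by linarith)]
    refine lt_of_le_of_lt h6 ?_
    have h7 : 0.6931471803 * 3.7611 ≤ Real.log 2 * Real.log 43 := by
      apply mul_le_mul hL2.le hL43 (by norm_num)
      exact Real.log_nonneg (by norm_num)
    have h8 : (161 / 225 : ℝ) * n - 1 ≤ (n : ℝ) - m := by linarith
    have h9 : 0 ≤ (161 / 225 : ℝ) * n - 1 := by linarith
    have h10 : 0 ≤ (n : ℝ) - m := by linarith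
    calc 1.365811 ^ 2 * (n : ℝ) < ((161 / 225 : ℝ) * n - 1) * (0.6931471803 * 3.7611) := by
          norm_num; linarith
      _ ≤ ((n : ℝ) - m) * (Real.log 2 * Real.log 43) := by gcongr
      _ = ((n : ℝ) - m) * Real.log 2 * Real.log 43 := by ring
  have hDb : 5 * (n : ℝ) ^ 2 * ε ^ 2 + 4 * (n : ℝ) ^ 4 * (43 / 925) ^ (2 * n) ≤ D ^ 2 := by
    have e1 : ε ^ 2 = Real.exp (-(0.00002 * S)) * D ^ 2 := by
      rw [hε, hD, ← Real.exp_nat_mul, ← Real.exp_nat_mul, ← Real.exp_add]
      congr 1; push_cast; ring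
    have e2 : ((43:ℝ) / 925) ^ (2 * n) ≤ Real.exp (-(2.2684 * S)) * D ^ 2 := by
      have h4 : ((43:ℝ) / 925) ^ 2 ≤ Real.exp (-5) := by
        have h5 : Real.exp 5 ≤ 400 := by
          have h := Real.exp_one_lt_d9
          have h2 : Real.exp 5 = Real.exp 1 ^ 5 := by rw [← Real.exp_nat_mul]; norm_num
          rw [h2]
          calc Real.exp 1 ^ 5 ≤ 2.72 ^ 5 := by gcongr; linarith
            _ ≤ 400 := by norm_num
        rw [Real.exp_neg]
        have h6 : (400:ℝ)⁻¹ ≤ (Real.exp 5)⁻¹ := by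
          apply inv_anti₀ (Real.exp_pos _) h5
        refine le_trans ?_ h6
        norm_num
      calc ((43:ℝ) / 925) ^ (2 * n) = (((43:ℝ) / 925) ^ 2) ^ n := by rw [pow_mul]
        _ ≤ (Real.exp (-5)) ^ n := by gcongr
        _ = Real.exp (n * (-5)) := by rw [← Real.exp_nat_mul]
        _ ≤ Real.exp (-(2.2684 * S) + (2 : ℕ) * (-(1.3658 * S))) := by
            apply Real.exp_le_exp.mpr
            push_cast
            linarith
        _ = Real.exp (-(2.2684 * S)) * D ^ 2 := by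
            rw [Real.exp_add, hD, Real.exp_nat_mul]
    have hD2 : 0 < D ^ 2 := by positivity
    calc 5 * (n : ℝ) ^ 2 * ε ^ 2 + 4 * (n : ℝ) ^ 4 * (43 / 925) ^ (2 * n)
        ≤ 5 * (n : ℝ) ^ 2 * (Real.exp (-(0.00002 * S)) * D ^ 2)
          + 4 * (n : ℝ) ^ 4 * (Real.exp (-(2.2684 * S)) * D ^ 2) := by
          rw [e1]; gcongr
      _ = (1 / 2) * (10 * (n : ℝ) ^ 2 * Real.exp (-(0.00002 * S))) * D ^ 2
          + (1 / 2) * (8 * (n : ℝ) ^ 4 * Real.exp (-(2.2684 * S))) * D ^ 2 := by ring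
      _ ≤ (1 / 2) * 1 * D ^ 2 + (1 / 2) * 1 * D ^ 2 := by gcongr
      _ = D ^ 2 := by ring
  obtain ⟨p, hp, hF, hsup⟩ := upper_exists n m ε D (by omega) hm1 hmn hε0 (by linarith)
    (Real.exp_pos _) hcount hDb
  exact (mu_le n p hp hF).trans hsup

end Pool.Agent.H874LT
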